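import Mathlib

/-!
Definitions for the stopping problem on maximal `k`-degenerate graphs.
-/

set_option autoImplicit false

namespace Pool.Agent.K4H82.DG

/-- `G` is `k`-degenerate: every (nonempty) induced subgraph has a vertex of degree at most `k`. -/
def IsKDegenerate (k : ℕ) {n : ℕ} (G : SimpleGraph (Fin n)) : Prop :=
  ∀ S : Set (Fin n), S.Nonempty → ∃ v ∈ S, {w ∈ S | G.Adj v w}.ncard ≤ k

/-- `G` is maximal `k`-degenerate: it is `k`-degenerate and adding any edge on the same vertex set
destroys this. -/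
def IsMaxKDegenerate (k : ℕ) {n : ℕ} (G : SimpleGraph (Fin n)) : Prop :=
  IsKDegenerate k G ∧ ∀ u v : Fin n, u ≠ v → ¬ G.Adj u v →
    ¬ IsKDegenerate k (G ⊔ SimpleGraph.edge u v)

/-- The set of the first `t` vertices of the ordering `σ`. -/
def active {n : ℕ} (σ : Equiv.Perm (Fin n)) (t : ℕ) : Set (Fin n) :=
  {v | ∃ i : Fin n, (i : ℕ) < t ∧ σ i = v}

/-- `CC(σ,t)`: the number of connected components of the subgraph induced by the first `t`
vertices. -/
noncomputable def CC {n : ℕ} (G : SimpleGraph (Fin n)) (σ : Equiv.Perm (Fin n)) (t : ℕ) : ℕ :=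
  Nat.card (G.induce (active σ t)).ConnectedComponent

/-- `A` is a stopping algorithm: it stops at a time between `1` and `n`, and whether it stops at
time `t` depends only on the first `t` vertices. -/
def IsStopping {n : ℕ} (A : Equiv.Perm (Fin n) → ℕ) : Prop :=
  (∀ σ, 1 ≤ A σ ∧ A σ ≤ n) ∧
    ∀ σ τ : Equiv.Perm (Fin n), (∀ i : Fin n, (i : ℕ) < A σ → σ i = τ i) → A τ = A σ

/-- `CC_G(A)`: the expected number of components when the algorithm `A` stops, for a uniformly
random ordering of the vertices. -/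
noncomputable def value {n : ℕ} (G : SimpleGraph (Fin n)) (A : Equiv.Perm (Fin n) → ℕ) : ℝ :=
  (∑ σ : Equiv.Perm (Fin n), (CC G σ (A σ) : ℝ)) / (n.factorial : ℝ)

/-- `m(G)`: the maximum of `CC_G(A)` over all stopping algorithms `A`. -/
noncomputable def m {n : ℕ} (G : SimpleGraph (Fin n)) : ℝ :=
  sSup {x : ℝ | ∃ A : Equiv.Perm (Fin n) → ℕ, IsStopping A ∧ x = value G A}

end Pool.Agent.K4H82.DG
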