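import Mathlib
import Pool.Agent.K4H82.DG.Defs

set_option autoImplicit false

namespace Pool.Agent.K4H82.DG

open Equiv

section

variable {n : ℕ}

/-- average over all orderings -/
noncomputable def av (F : Perm (Fin n) → ℝ) : ℝ := (∑ σ : Perm (Fin n), F σ) / (n.factorial : ℝ)

lemma fac_pos : (0 : ℝ) < (n.factorial : ℝ) := by exact_mod_cast n.factorial_pos

lemma av_add (F F' : Perm (Fin n) → ℝ) : av (fun σ => F σ + F' σ) = av F + av F' := by
  unfold av
  rw [Finset.sum_add_distrib, add_div]

lemma av_sub (F F' : Perm (Fin n) → ℝ) : av (fun σ => F σ - F' σ) = av F - av F' := by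
  unfold av
  rw [Finset.sum_sub_distrib, sub_div]

lemma av_const (c : ℝ) : av (fun _ : Perm (Fin n) => c) = c := by
  unfold av
  rw [Finset.sum_const, Finset.card_univ, Fintype.card_perm, Fintype.card_fin, nsmul_eq_mul]
  field_simp

lemma av_mul (c : ℝ) (F : Perm (Fin n) → ℝ) : av (fun σ => c * F σ) = c * av F := by
  unfold av
  rw [← Finset.mul_sum, mul_div_assoc]

lemma av_sum {ι : Type} (s : Finset ι) (F : ι → Perm (Fin n) → ℝ) :
    av (fun σ => ∑ i ∈ s, F i σ) = ∑ i ∈ s, av (F i) := by
  unfold av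
  rw [Finset.sum_comm, Finset.sum_div]

lemma av_mono {F F' : Perm (Fin n) → ℝ} (h : ∀ σ, F σ ≤ F' σ) : av F ≤ av F' := by
  unfold av
  exact div_le_div_of_nonneg_right (Finset.sum_le_sum (fun σ _ => h σ)) fac_pos.le

lemma av_nonneg {F : Perm (Fin n) → ℝ} (h : ∀ σ, 0 ≤ F σ) : 0 ≤ av F := by
  unfold av
  exact div_nonneg (Finset.sum_nonneg (fun σ _ => h σ)) fac_pos.le

lemma av_left (π : Perm (Fin n)) (F : Perm (Fin n) → ℝ) : av (fun σ => F (π * σ)) = av F := by
  unfold av
  congr 1
  exact Equiv.sum_comp (Equiv.mulLeft π) F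

lemma av_right (π : Perm (Fin n)) (F : Perm (Fin n) → ℝ) : av (fun σ => F (σ * π)) = av F := by
  unfold av
  congr 1
  exact Equiv.sum_comp (Equiv.mulRight π) F

lemma mem_active {σ : Perm (Fin n)} {t : ℕ} {v : Fin n} :
    v ∈ active σ t ↔ ((σ.symm v : Fin n) : ℕ) < t := by
  unfold active
  constructor
  · rintro ⟨i, hi, rfl⟩
    simpa using hi
  · intro h
    exact ⟨σ.symm v, h, by simp⟩

lemma active_succ (σ : Perm (Fin n)) (T : Fin n) :
    active σ ((T : ℕ) + 1) = insert (σ T) (active σ (T : ℕ)) := by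
  ext v
  rw [Set.mem_insert_iff, mem_active, mem_active]
  constructor
  · intro h
    by_cases h1 : ((σ.symm v : Fin n) : ℕ) < T
    · exact Or.inr h1
    · left
      have h2 : σ.symm v = T := Fin.ext (by omega)
      rw [← h2]; simp
  · rintro (rfl | h)
    · simp
    · omega

lemma not_mem_active (σ : Perm (Fin n)) (T : Fin n) : σ T ∉ active σ (T : ℕ) := by
  rw [mem_active]; simp

lemma active_zero (σ : Perm (Fin n)) : active σ 0 = ∅ := by
  ext v; rw [mem_active]; simp

lemma mem_active_mul {π σ : Perm (Fin n)} {t : ℕ} {v : Fin n} :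
    v ∈ active (π * σ) t ↔ π.symm v ∈ active σ t := by
  rw [mem_active, mem_active]
  rfl

/-- `g` depends only on the sites in `D` -/
def DependsOn' (g : Set (Fin n) → ℝ) (D : Finset (Fin n)) : Prop :=
  ∀ S S' : Set (Fin n), (∀ u ∈ D, (u ∈ S ↔ u ∈ S')) → g S = g S'

open Classical in
/-- count of the active vertices -/
lemma card_active (σ : Perm (Fin n)) {t : ℕ} (ht : t ≤ n) :
    (Finset.univ.filter (fun v => v ∈ active σ t)).card = t := by
  have h1 : Finset.univ.filter (fun v => v ∈ active σ t) =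
      (Finset.univ.filter (fun i : Fin n => (i : ℕ) < t)).map σ.toEmbedding := by
    ext v
    rw [Finset.mem_filter, Finset.mem_map, mem_active]
    constructor
    · rintro ⟨_, h⟩
      exact ⟨σ.symm v, by simpa using h, by simp⟩
    · rintro ⟨i, hi, rfl⟩
      simpa using hi
  rw [h1, Finset.card_map]
  rw [Fin.card_filter_val_lt]
  exact min_eq_right ht

variable (T : Fin n)

open Classical in
/-- expectation of `g` on the event that the next vertex is `v` -/
noncomputable def eN (g : Set (Fin n) → ℝ) (v : Fin n) : ℝ :=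
  av (fun σ => if σ T = v then g (active σ (T : ℕ)) else 0)

lemma dep_active {g : Set (Fin n) → ℝ} {D : Finset (Fin n)} (hg : DependsOn' g D)
    {x y : Fin n} (hx : x ∉ D) (hy : y ∉ D) (σ : Perm (Fin n)) (t : ℕ) :
    g (active (swap x y * σ) t) = g (active σ t) := by
  apply hg
  intro u hu
  rw [mem_active_mul]
  have h1 : (swap x y).symm u = u := by
    rw [Equiv.symm_swap]
    exact swap_apply_of_ne_of_ne (fun e => hx (e ▸ hu)) (fun e => hy (e ▸ hu))
  rw [h1]

lemma eN_swap {g : Set (Fin n) → ℝ} {D : Finset (Fin n)} (hg : DependsOn' g D)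
    {x y : Fin n} (hx : x ∉ D) (hy : y ∉ D) : eN T g x = eN T g y := by
  classical
  unfold eN
  rw [← av_left (swap x y) (fun σ => if σ T = y then g (active σ (T : ℕ)) else 0)]
  congr 1
  funext σ
  rw [dep_active hg hx hy]
  have : ((swap x y * σ) T = y) ↔ (σ T = x) := by
    rw [Perm.mul_apply]
    constructor
    · intro h
      have := congrArg (swap x y) h
      rwa [swap_apply_self, swap_apply_right] at this
    · rintro h
      rw [h, swap_apply_left]
  by_cases h : σ T = x
  · rw [if_pos h, if_pos (this.2 h)]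
  · rw [if_neg h, if_neg (fun h' => h (this.1 h'))]

lemma eN_sum (g : Set (Fin n) → ℝ) : ∑ v, eN T g v = av (fun σ => g (active σ (T : ℕ))) := by
  classical
  unfold eN
  rw [← av_sum]
  congr 1
  funext σ
  rw [Finset.sum_ite_eq]
  simp

lemma eN_one (v : Fin n) : eN T (fun _ => 1) v = 1 / n := by
  have h1 : ∀ y, eN T (fun _ => 1) y = eN T (fun _ => 1) v := fun y =>
    eN_swap T (D := ∅) (fun _ _ _ => rfl) (by simp) (by simp)
  have h2 := eN_sum T (fun _ => 1)
  rw [av_const, Finset.sum_congr rfl (fun y _ => h1 y), Finset.sum_const, Finset.card_univ,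
    Fintype.card_fin, nsmul_eq_mul] at h2
  have hn : (n : ℝ) ≠ 0 := by
    have := T.pos
    positivity
  field_simp
  linarith

lemma eN_le {g : Set (Fin n) → ℝ} (hg1 : ∀ S, g S ≤ 1) (v : Fin n) : eN T g v ≤ 1 / n := by
  classical
  rw [← eN_one T v]
  unfold eN
  apply av_mono
  intro σ
  split_ifs
  · exact hg1 _
  · exact le_rfl

lemma eN_nonneg {g : Set (Fin n) → ℝ} (hg0 : ∀ S, 0 ≤ g S) (v : Fin n) : 0 ≤ eN T g v := by
  classical
  unfold eN
  apply av_nonneg
  intro σ
  split_ifs
  · exact hg0 _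
  · exact le_rfl

include T in
lemma n_pos : (0 : ℝ) < n := by
  have := T.pos
  exact_mod_cast this

/-- `g` is almost independent from the event that the next vertex is `v` -/
lemma eN_ge {g : Set (Fin n) → ℝ} (hg0 : ∀ S, 0 ≤ g S) (hg1 : ∀ S, g S ≤ 1)
    {D : Finset (Fin n)} (hg : DependsOn' g D) {d : ℕ} (hd : D.card ≤ d) {v : Fin n}
    (hv : v ∉ D) : av (fun σ => g (active σ (T : ℕ))) - d / n ≤ n * eN T g v := by
  classical
  have hn := n_pos T
  rw [← eN_sum T g, ← Finset.sum_compl_add_sum D]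
  have h1 : ∑ y ∈ Dᶜ, eN T g y = (Dᶜ.card : ℝ) * eN T g v := by
    rw [Finset.sum_congr rfl (fun y hy => eN_swap T hg (Finset.mem_compl.1 hy) hv),
      Finset.sum_const, nsmul_eq_mul]
  have h2 : ∑ y ∈ D, eN T g y ≤ (D.card : ℝ) * (1 / n) := by
    rw [← nsmul_eq_mul]
    exact Finset.sum_le_card_nsmul _ _ _ (fun y _ => eN_le T hg1 y)
  have h3 : (Dᶜ.card : ℝ) ≤ n := by
    have : Dᶜ.card ≤ n := by
      have := Finset.card_le_univ Dᶜ
      rwa [Fintype.card_fin] at this
    exact_mod_cast this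
  have h4 : (Dᶜ.card : ℝ) * eN T g v ≤ n * eN T g v :=
    mul_le_mul_of_nonneg_right h3 (eN_nonneg T hg0 v)
  have h5 : (D.card : ℝ) * (1 / n) ≤ d / n := by
    rw [mul_one_div]
    exact div_le_div_of_nonneg_right (by exact_mod_cast hd) hn.le
  rw [h1]
  linarith

/-- the joint version, with the event that `x` is active -/
lemma eN_joint {g : Set (Fin n) → ℝ} (hg0 : ∀ S, 0 ≤ g S) (hg1 : ∀ S, g S ≤ 1)
    {D : Finset (Fin n)} (hg : DependsOn' g D) {d : ℕ} (hd : D.card ≤ d) {v : Fin n}
    (hv : v ∉ D) {x : Fin n} (hx : x ∉ D) (hxv : x ≠ v)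
    (h : Set (Fin n) → ℝ) (hh1 : ∀ S, x ∈ S → h S = g S) (hh0 : ∀ S, x ∉ S → h S = 0) :
    ((T : ℕ) : ℝ) / n * av (fun σ => g (active σ (T : ℕ))) - 2 * d / n ≤ n * eN T h v := by
  classical
  have hn := n_pos T
  -- the function with `y` instead of `x`
  let f : Fin n → ℝ := fun y => eN T (fun S => if y ∈ S then g S else 0) v
  have hf : eN T h v = f x := by
    simp only [f]
    congr 1
    funext S
    by_cases hS : x ∈ S
    · rw [if_pos hS, hh1 S hS]
    · rw [if_neg hS, hh0 S hS]
  have hfy : ∀ y, y ∉ D → y ≠ v → f y = f x := by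
    intro y hy hyv
    simp only [f]
    unfold eN
    rw [← av_left (swap x y) (fun σ => if σ T = v then
      (if y ∈ active σ (T : ℕ) then g (active σ (T : ℕ)) else 0) else 0)]
    congr 1
    funext σ
    rw [dep_active hg hx hy]
    have h1 : ((swap x y * σ) T = v) ↔ (σ T = v) := by
      rw [Perm.mul_apply]
      constructor
      · intro h
        have := congrArg (swap x y) h
        rwa [swap_apply_self, swap_apply_of_ne_of_ne (Ne.symm hxv) (Ne.symm hyv)] at this
      · intro h
        rw [h, swap_apply_of_ne_of_ne (Ne.symm hxv) (Ne.symm hyv)]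
    have h2 : (y ∈ active (swap x y * σ) (T : ℕ)) ↔ x ∈ active σ (T : ℕ) := by
      rw [mem_active_mul, Equiv.symm_swap, swap_apply_right]
    simp only [h1, h2]
  have hf0 : 0 ≤ f x := by
    apply eN_nonneg
    intro S
    split_ifs
    · exact hg0 S
    · exact le_rfl
  set E := (insert v D)ᶜ with hE
  have hsum : ∑ y ∈ E, f y = (E.card : ℝ) * f x := by
    rw [Finset.sum_congr rfl (fun y hy => hfy y (fun h => by
      rw [hE, Finset.mem_compl] at hy
      exact hy (Finset.mem_insert_of_mem h)) (fun h => by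
      rw [hE, Finset.mem_compl] at hy
      exact hy (h ▸ Finset.mem_insert_self _ _))), Finset.sum_const, nsmul_eq_mul]
  have hEn : (E.card : ℝ) ≤ n := by
    have : E.card ≤ n := by
      have := Finset.card_le_univ E
      rwa [Fintype.card_fin] at this
    exact_mod_cast this
  -- lower bound
  have hlow : (((T : ℕ) : ℝ) - d) * eN T g v ≤ ∑ y ∈ E, f y := by
    simp only [f]
    unfold eN
    rw [← av_sum, ← av_mul]
    apply av_mono
    intro σ
    by_cases hσ : σ T = v
    · simp only [if_pos hσ]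
      rw [← Finset.sum_filter, Finset.sum_const, nsmul_eq_mul]
      apply mul_le_mul_of_nonneg_right _ (hg0 _)
      -- count
      have h1 := card_active σ T.2.le
      have h2 : Finset.univ.filter (fun u => u ∈ active σ (T : ℕ)) ⊆
          (E.filter (fun u => u ∈ active σ (T : ℕ))) ∪ D := by
        intro u hu
        rw [Finset.mem_union, Finset.mem_filter, hE, Finset.mem_compl, Finset.mem_insert]
        by_cases huD : u ∈ D
        · exact Or.inr huD
        · left
          have hu' := (Finset.mem_filter.1 hu).2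
          refine ⟨?_, hu'⟩
          rintro (rfl | h)
          · rw [← hσ] at hu'
            exact not_mem_active σ T hu'
          · exact huD h
      have h3 := (Finset.card_le_card h2).trans (Finset.card_union_le _ _)
      rw [h1] at h3
      have h4 : (T : ℕ) ≤ (E.filter (fun u => u ∈ active σ (T : ℕ))).card + d := by omega
      have h5 : ((T : ℕ) : ℝ) ≤ ((E.filter (fun u => u ∈ active σ (T : ℕ))).card : ℝ) + d := by
        exact_mod_cast h4
      linarith
    · simp only [if_neg hσ]
      simp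
  have h6 : (((T : ℕ) : ℝ) - d) * eN T g v ≤ n * f x := by
    rw [hsum] at hlow
    exact hlow.trans (mul_le_mul_of_nonneg_right hEn hf0)
  have h7 := eN_ge T hg0 hg1 hg hd hv
  have h8 := eN_le T hg1 v
  have h9 := eN_nonneg T hg0 v
  rw [hf]
  set e := eN T g v
  set A := av (fun σ => g (active σ (T : ℕ)))
  have hT : ((T : ℕ) : ℝ) ≤ n := by exact_mod_cast T.2.le
  have hT0 : (0 : ℝ) ≤ ((T : ℕ) : ℝ) := by positivity
  have h10 : (d : ℝ) * e ≤ d / n := by
    calc (d : ℝ) * e ≤ d * (1 / n) := mul_le_mul_of_nonneg_left h8 (by positivity)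
      _ = d / n := by ring
  have h11 : ((T : ℕ) : ℝ) / n * A - d / n ≤ ((T : ℕ) : ℝ) * e := by
    have h12 : ((T : ℕ) : ℝ) / n * (A - d / n) ≤ ((T : ℕ) : ℝ) / n * (n * e) :=
      mul_le_mul_of_nonneg_left h7 (by positivity)
    have h13 : ((T : ℕ) : ℝ) / n * (n * e) = ((T : ℕ) : ℝ) * e := by
      field_simp
    have h14 : ((T : ℕ) : ℝ) / n * (d / n) ≤ 1 * (d / n) := by
      apply mul_le_mul_of_nonneg_right _ (by positivity)
      rw [div_le_one hn]
      exact hT
    rw [h13] at h12
    have h15 : ((T : ℕ) : ℝ) / n * (A - d / n) = ((T : ℕ) : ℝ) / n * A -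
      ((T : ℕ) : ℝ) / n * (d / n) := by ring
    rw [h15] at h12
    linarith
  have h16 : (2 : ℝ) * d / n = d / n + d / n := by ring
  rw [h16]
  have h17 : (((T : ℕ) : ℝ) - d) * e = ((T : ℕ) : ℝ) * e - d * e := by ring
  rw [h17] at h6
  linarith

end

end Pool.Agent.K4H82.DG
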