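import Mathlib
import Pool.Agent.K4H82.DG.Defs

set_option autoImplicit false

namespace Pool.Agent.K4H82.DG

open SimpleGraph

section

variable {V : Type} [Finite V] {G : SimpleGraph V}

/-- number of components of an induced subgraph -/
noncomputable def Z (G : SimpleGraph V) (S : Set V) : ℕ :=
  Nat.card (G.induce S).ConnectedComponent

/-- inclusion of induced subgraphs -/
def incl (G : SimpleGraph V) {S T : Set V} (h : S ⊆ T) : G.induce S →g G.induce T :=
  (SimpleGraph.induceHomOfLE G h).toHom

lemma incl_apply {S T : Set V} (h : S ⊆ T) (x : S) : incl G h x = ⟨x.1, h x.2⟩ := rfl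

lemma card_le_comp_add_edges {W : Type} [Fintype W] (H : SimpleGraph W) :
    Nat.card W ≤ Nat.card H.ConnectedComponent + Nat.card H.edgeSet := by
  classical
  haveI : Finite H.ConnectedComponent := Quot.finite _
  -- the root of a component
  let r : W → W := fun w => (H.connectedComponentMk w).out
  have hr : ∀ w, H.Reachable (r w) w := fun w =>
    SimpleGraph.ConnectedComponent.exact (Quot.out_eq (H.connectedComponentMk w))
  have hpar : ∀ w, w ≠ r w → ∃ u, H.Adj w u ∧ H.dist u (r w) + 1 = H.dist w (r w) := by
    intro w hw
    obtain ⟨p, hp⟩ := (hr w).symm.exists_walk_length_eq_dist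
    generalize r w = z at hw p hp
    cases p with
    | nil => exact absurd rfl hw
    | cons h q =>
      rename_i u
      refine ⟨u, h, ?_⟩
      have h1 := SimpleGraph.dist_le q
      rw [SimpleGraph.Walk.length_cons] at hp
      have h2 : H.dist w z ≤ H.dist u z + 1 := by
        obtain ⟨q', hq'⟩ := (q.reachable).exists_walk_length_eq_dist
        have := SimpleGraph.dist_le (SimpleGraph.Walk.cons h q')
        rw [SimpleGraph.Walk.length_cons, hq'] at this
        exact this
      omega
  choose! P hP using hpar
  let φ : W → H.ConnectedComponent ⊕ H.edgeSet := fun w =>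
    if h : w = r w then Sum.inl (H.connectedComponentMk w)
    else Sum.inr ⟨s(w, P w), (hP w h).1⟩
  have hφ : Function.Injective φ := by
    intro w w' hww
    simp only [φ] at hww
    by_cases h : w = r w <;> by_cases h' : w' = r w'
    · rw [dif_pos h, dif_pos h'] at hww
      have h1 := Sum.inl.inj hww
      rw [h, h']
      simp only [r]
      rw [h1]
    · rw [dif_pos h, dif_neg h'] at hww
      simp at hww
    · rw [dif_neg h, dif_pos h'] at hww
      simp at hww
    · rw [dif_neg h, dif_neg h'] at hww
      have h1 : s(w, P w) = s(w', P w') := congrArg Subtype.val (Sum.inr.inj hww)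
      rw [Sym2.eq_iff] at h1
      rcases h1 with ⟨h2, _⟩ | ⟨h2, h3⟩
      · exact h2
      · exfalso
        obtain ⟨a1, a2⟩ := hP w h
        obtain ⟨b1, b2⟩ := hP w' h'
        -- `w = P w'`, `P w = w'`, so both have the same root
        have hroot : r w = r w' := by
          simp only [r]
          rw [SimpleGraph.ConnectedComponent.sound (show H.Reachable w w' from by
            rw [← h3]; exact a1.reachable)]
        rw [h3, hroot] at a2
        rw [← h2] at b2
        omega
  calc Nat.card W ≤ Nat.card (H.ConnectedComponent ⊕ H.edgeSet) :=
        Nat.card_le_card_of_injective φ hφ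
    _ = Nat.card H.ConnectedComponent + Nat.card H.edgeSet := Nat.card_sum

/-- adding a vertex adjacent to several different components -/
lemma Z_insert {S : Set V} {v : V} (ι : Type) [Finite ι] (f : ι → S)
    (hadj : ∀ i, G.Adj v (f i).1)
    (hdiff : ∀ i j, i ≠ j → ¬ (G.induce S).Reachable (f i) (f j)) :
    Z G (insert v S) + Nat.card ι ≤ Z G S + 1 := by
  classical
  haveI : Finite (G.induce S).ConnectedComponent := Quot.finite _
  haveI : Finite (G.induce (insert v S)).ConnectedComponent := Quot.finite _
  let v' : (insert v S : Set V) := ⟨v, Set.mem_insert v S⟩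
  have hS : S ⊆ insert v S := Set.subset_insert v S
  let ψ : (G.induce S).ConnectedComponent → (G.induce (insert v S)).ConnectedComponent :=
    SimpleGraph.ConnectedComponent.map (incl G hS)
  have hex : ∀ c : (G.induce (insert v S)).ConnectedComponent,
      c ≠ (G.induce (insert v S)).connectedComponentMk v' → ∃ d, ψ d = c := by
    intro c hc
    induction c using SimpleGraph.ConnectedComponent.ind with
    | _ x =>
      obtain ⟨x, hx⟩ := x
      rcases Set.mem_insert_iff.1 hx with rfl | hxS
      · exact absurd rfl hc
      · exact ⟨(G.induce S).connectedComponentMk ⟨x, hxS⟩, rfl⟩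
  choose D hD using hex
  let φ : (G.induce (insert v S)).ConnectedComponent ⊕ ι → Option (G.induce S).ConnectedComponent :=
    Sum.elim (fun c => if h : c = (G.induce (insert v S)).connectedComponentMk v' then none
      else some (D c h)) (fun i => some ((G.induce S).connectedComponentMk (f i)))
  have hψf : ∀ i, ψ ((G.induce S).connectedComponentMk (f i)) =
      (G.induce (insert v S)).connectedComponentMk v' := by
    intro i
    change (G.induce (insert v S)).connectedComponentMk (incl G hS (f i)) = _
    apply SimpleGraph.ConnectedComponent.sound
    apply SimpleGraph.Adj.reachable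
    change G.Adj (f i).1 v
    exact (hadj i).symm
  have hφ : Function.Injective φ := by
    rintro (c | i) (c' | i') h
    · simp only [φ, Sum.elim_inl] at h
      split_ifs at h with h1 h2 h2
      · rw [h1, h2]
      · have := Option.some.inj h
        rw [← hD c h1, ← hD c' h2, this]
    · simp only [φ, Sum.elim_inl, Sum.elim_inr] at h
      split_ifs at h with h1
      have h2 := Option.some.inj h
      have h3 := hD c h1
      rw [h2, hψf] at h3
      exact absurd h3.symm h1
    · simp only [φ, Sum.elim_inl, Sum.elim_inr] at h
      split_ifs at h with h1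
      have h2 := Option.some.inj h
      have h3 := hD c' h1
      rw [← h2, hψf] at h3
      exact absurd h3.symm h1
    · simp only [φ, Sum.elim_inr] at h
      by_contra hne
      have h1 := SimpleGraph.ConnectedComponent.exact (Option.some.inj h)
      exact hdiff i i' (fun e => hne (by rw [e])) h1
  have h := Nat.card_le_card_of_injective φ hφ
  rw [Nat.card_sum, Finite.card_option] at h
  exact h

lemma Z_insert_le {S : Set V} {v : V} : Z G (insert v S) ≤ Z G S + 1 := by
  have := Z_insert (G := G) (S := S) (v := v) Empty (fun i => i.elim) (fun i => i.elim)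
    (fun i => i.elim)
  simpa using this

/-- removing a vertex -/
lemma Z_le_insert {S : Set V} {v : V} :
    Z G S ≤ Z G (insert v S) + Nat.card (G.neighborSet v) := by
  classical
  haveI : Finite (G.induce S).ConnectedComponent := Quot.finite _
  haveI : Finite (G.induce (insert v S)).ConnectedComponent := Quot.finite _
  have hS : S ⊆ insert v S := Set.subset_insert v S
  let ψ : (G.induce S).ConnectedComponent → (G.induce (insert v S)).ConnectedComponent :=
    SimpleGraph.ConnectedComponent.map (incl G hS)
  let Q : (G.induce S).ConnectedComponent → Prop := fun c =>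
    ∃ x : S, (G.induce S).connectedComponentMk x = c ∧ G.Adj v x.1
  let φ : (G.induce S).ConnectedComponent →
      (G.induce (insert v S)).ConnectedComponent ⊕ G.neighborSet v := fun c =>
    if h : Q c then Sum.inr ⟨h.choose.1, h.choose_spec.2⟩ else Sum.inl (ψ c)
  -- a component not adjacent to `v` is closed in the larger graph
  have hclosed : ∀ c, ¬ Q c → ∀ (x y : (insert v S : Set V)) (hx : x.1 ∈ S),
      (G.induce (insert v S)).Reachable x y → (G.induce S).connectedComponentMk ⟨x.1, hx⟩ = c →
      ∃ hy : y.1 ∈ S, (G.induce S).connectedComponentMk ⟨y.1, hy⟩ = c := by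
    intro c hc x y hx hxy
    obtain ⟨p⟩ := hxy
    induction p with
    | nil => exact fun h => ⟨hx, h⟩
    | cons hadj p ih =>
      rename_i a b d
      intro hac
      have hab : G.Adj a.1 b.1 := hadj
      have hb : b.1 ∈ S := by
        rcases Set.mem_insert_iff.1 b.2 with h | h
        · exfalso
          refine hc ⟨⟨a.1, hx⟩, hac, ?_⟩
          rw [h] at hab
          exact hab.symm
        · exact h
      refine ih hb ?_
      rw [← hac]
      apply SimpleGraph.ConnectedComponent.sound
      apply SimpleGraph.Adj.reachable
      exact hab.symm
  have hφ : Function.Injective φ := by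
    intro c c' h
    simp only [φ] at h
    by_cases h1 : Q c <;> by_cases h2 : Q c'
    · rw [dif_pos h1, dif_pos h2] at h
      have h3 := congrArg Subtype.val (Sum.inr.inj h)
      have h4 : h1.choose = h2.choose := Subtype.ext h3
      rw [← h1.choose_spec.1, ← h2.choose_spec.1, h4]
    · rw [dif_pos h1, dif_neg h2] at h
      simp at h
    · rw [dif_neg h1, dif_pos h2] at h
      simp at h
    · rw [dif_neg h1, dif_neg h2] at h
      have h3 := Sum.inl.inj h
      induction c using SimpleGraph.ConnectedComponent.ind with
      | _ x =>
        induction c' using SimpleGraph.ConnectedComponent.ind with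
        | _ y =>
          have h4 : (G.induce (insert v S)).Reachable (incl G hS x) (incl G hS y) :=
            SimpleGraph.ConnectedComponent.exact h3
          obtain ⟨_, h5⟩ := hclosed _ h1 _ _ x.2 h4 rfl
          exact h5.symm
  have h := Nat.card_le_card_of_injective φ hφ
  rw [Nat.card_sum] at h
  exact h

lemma Z_empty : Z G (∅ : Set V) = 0 := by
  unfold Z
  rw [Nat.card_eq_zero]
  left
  constructor
  intro c
  induction c using SimpleGraph.ConnectedComponent.ind with
  | _ x => exact x.2

end

end Pool.Agent.K4H82.DG
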