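import Mathlib
import Pool.Agent.K4H82.DG.Av

set_option autoImplicit false

namespace Pool.Agent.K4H82.DG

open Equiv

lemma dec_swap {n : ℕ} (p : Fin (n + 1)) (e : Perm (Fin n)) (a b : Fin n) :
    Perm.decomposeFin.symm (p, swap a b * e) =
      swap (swap 0 p a.succ) (swap 0 p b.succ) * Perm.decomposeFin.symm (p, e) := by
  ext x
  congr 1
  refine Fin.cases ?_ (fun x => ?_) x
  · rw [Perm.decomposeFin_symm_apply_zero, Perm.mul_apply, Perm.decomposeFin_symm_apply_zero]
    have h : ∀ a : Fin n, p ≠ swap 0 p a.succ := by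
      intro a h
      have h1 := congrArg (swap 0 p) h
      rw [swap_apply_self, swap_apply_right] at h1
      exact (Fin.succ_ne_zero a) h1.symm
    rw [swap_apply_of_ne_of_ne (h a) (h b)]
  · rw [Perm.decomposeFin_symm_apply_succ, Perm.mul_apply, Perm.mul_apply,
      Perm.decomposeFin_symm_apply_succ,
      Function.Injective.swap_apply (Equiv.injective (swap 0 p)),
      Function.Injective.swap_apply (Fin.succ_injective n)]

lemma dec_swap' {n : ℕ} (p q : Fin (n + 1)) (e : Perm (Fin n)) :
    Perm.decomposeFin.symm (p, e) =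
      swap 0 p * (swap 0 q * Perm.decomposeFin.symm (q, e)) := by
  ext x
  congr 1
  refine Fin.cases ?_ (fun x => ?_) x
  · rw [Perm.decomposeFin_symm_apply_zero, Perm.mul_apply, Perm.mul_apply,
      Perm.decomposeFin_symm_apply_zero, swap_apply_right, swap_apply_left]
  · rw [Perm.decomposeFin_symm_apply_succ, Perm.mul_apply, Perm.mul_apply,
      Perm.decomposeFin_symm_apply_succ, swap_apply_self]

theorem var_perm (L : ℝ) (hL : 0 ≤ L) (n : ℕ) : ∀ (F : Perm (Fin n) → ℝ),
    (∀ σ a b, |F (swap a b * σ) - F σ| ≤ L) →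
    ∑ σ, (F σ - av F) ^ 2 ≤ (n.factorial : ℝ) * (4 * n * L ^ 2) := by
  induction n with
  | zero =>
    intro F _
    have h1 : ∀ σ : Perm (Fin 0), F σ - av F = 0 := by
      intro σ
      unfold av
      rw [Fintype.sum_unique]
      simp [Subsingleton.elim σ default]
    rw [Finset.sum_congr rfl (fun σ _ => by rw [h1 σ])]
    simp
  | succ n ih =>
    intro F hF
    let Fp : Fin (n + 1) → Perm (Fin n) → ℝ := fun p e => F (Perm.decomposeFin.symm (p, e))
    have hsum : ∀ H : Perm (Fin (n + 1)) → ℝ, ∑ σ, H σ =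
        ∑ p, ∑ e, H (Perm.decomposeFin.symm (p, e)) := by
      intro H
      rw [← Equiv.sum_comp (Perm.decomposeFin (n := n)).symm H, Fintype.sum_prod_type]
    have hfac : (((n + 1).factorial : ℕ) : ℝ) = ((n : ℝ) + 1) * (n.factorial : ℝ) := by
      rw [Nat.factorial_succ]; push_cast; ring
    have hn1 : (0 : ℝ) < (n : ℝ) + 1 := by positivity
    have hμ : av F = (∑ p, av (Fp p)) / ((n : ℝ) + 1) := by
      unfold av
      rw [hsum F, hfac, ← Finset.sum_div]
      simp only [Fp]
      have := fac_pos (n := n)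
      field_simp
    have hFp : ∀ p, ∀ e a b, |Fp p (swap a b * e) - Fp p e| ≤ L := by
      intro p e a b
      simp only [Fp]
      rw [dec_swap]
      exact hF _ _ _
    have hpq : ∀ p q, |av (Fp p) - av (Fp q)| ≤ 2 * L := by
      have h1 : ∀ p q e, Fp p e ≤ Fp q e + 2 * L := by
        intro p q e
        simp only [Fp]
        rw [dec_swap' p q e]
        have h2 := hF (swap 0 q * Perm.decomposeFin.symm (q, e)) 0 p
        have h3 := hF (Perm.decomposeFin.symm (q, e)) 0 q
        rw [abs_le] at h2 h3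
        linarith [h2.2, h3.2]
      have h2 : ∀ p q, av (Fp p) ≤ av (Fp q) + 2 * L := by
        intro p q
        have := av_mono (F := Fp p) (F' := fun e => Fp q e + 2 * L) (h1 p q)
        rwa [av_add (Fp q) (fun _ => 2 * L), av_const] at this
      intro p q
      rw [abs_le]
      constructor
      · linarith [h2 q p]
      · linarith [h2 p q]
    have hpμ : ∀ p, (av (Fp p) - av F) ^ 2 ≤ 4 * L ^ 2 := by
      intro p
      have h1 : |av (Fp p) - av F| ≤ 2 * L := by
        have h2 : av (Fp p) - av F = (∑ q, (av (Fp p) - av (Fp q))) / ((n : ℝ) + 1) := by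
          rw [hμ, Finset.sum_sub_distrib, Finset.sum_const, Finset.card_univ, Fintype.card_fin,
            nsmul_eq_mul]
          push_cast
          field_simp
        rw [h2, abs_div, abs_of_pos hn1, div_le_iff₀ hn1]
        refine (Finset.abs_sum_le_sum_abs _ _).trans ?_
        refine (Finset.sum_le_card_nsmul _ _ (2 * L) (fun q _ => hpq p q)).trans ?_
        rw [Finset.card_univ, Fintype.card_fin, nsmul_eq_mul]
        push_cast
        linarith
      have h3 := sq_le_sq' (by linarith [(abs_le.1 h1).1]) (abs_le.1 h1).2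
      calc (av (Fp p) - av F) ^ 2 ≤ (2 * L) ^ 2 := h3
        _ = 4 * L ^ 2 := by ring
    have hmid : ∀ p, ∑ e, (Fp p e - av F) ^ 2 ≤
        (n.factorial : ℝ) * (4 * n * L ^ 2) + (n.factorial : ℝ) * (4 * L ^ 2) := by
      intro p
      have h1 : ∑ e, (Fp p e - av F) ^ 2 = ∑ e, (Fp p e - av (Fp p)) ^ 2 +
          (n.factorial : ℝ) * (av (Fp p) - av F) ^ 2 := by
        have h2 : ∀ e, (Fp p e - av F) ^ 2 = (Fp p e - av (Fp p)) ^ 2 +
            2 * (av (Fp p) - av F) * (Fp p e - av (Fp p)) + (av (Fp p) - av F) ^ 2 := by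
          intro e; ring
        rw [Finset.sum_congr rfl (fun e _ => h2 e), Finset.sum_add_distrib,
          Finset.sum_add_distrib, ← Finset.mul_sum]
        have h3 : ∑ e, (Fp p e - av (Fp p)) = 0 := by
          rw [Finset.sum_sub_distrib, Finset.sum_const, Finset.card_univ, Fintype.card_perm,
            Fintype.card_fin, nsmul_eq_mul]
          unfold av
          have := fac_pos (n := n)
          field_simp
          ring
        rw [h3, Finset.sum_const, Finset.card_univ, Fintype.card_perm, Fintype.card_fin,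
          nsmul_eq_mul]
        ring
      rw [h1]
      exact add_le_add (ih (Fp p) (hFp p)) (mul_le_mul_of_nonneg_left (hpμ p) fac_pos.le)
    rw [hsum]
    refine (Finset.sum_le_card_nsmul _ _ _ (fun p _ => hmid p)).trans ?_
    rw [Finset.card_univ, Fintype.card_fin, nsmul_eq_mul, hfac]
    push_cast
    apply le_of_eq
    ring

/-- mean absolute deviation -/
theorem dev_perm (L : ℝ) (hL : 0 ≤ L) {n : ℕ} (F : Perm (Fin n) → ℝ)
    (hF : ∀ σ a b, |F (swap a b * σ) - F σ| ≤ L) {δ : ℝ} (hδ : 0 < δ) :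
    av (fun σ => |F σ - av F|) ≤ δ + 4 * n * L ^ 2 / δ := by
  have h1 : av (fun σ => |F σ - av F|) ≤ av (fun σ => δ + (1 / δ) * (F σ - av F) ^ 2) := by
    apply av_mono
    intro σ
    set x := F σ - av F
    have h2 : |x| * δ ≤ δ ^ 2 + x ^ 2 := by
      nlinarith [sq_nonneg (|x| - δ), sq_abs x, abs_nonneg x]
    have h3 : (δ ^ 2 + x ^ 2) / δ = δ + (1 / δ) * x ^ 2 := by
      field_simp
    rw [← h3, le_div_iff₀ hδ]
    exact h2
  rw [av_add (fun _ => δ) (fun σ => (1 / δ) * (F σ - av F) ^ 2), av_const, av_mul] at h1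
  refine h1.trans ?_
  have h4 : av (fun σ => (F σ - av F) ^ 2) ≤ 4 * n * L ^ 2 := by
    have := var_perm L hL n F hF
    unfold av
    unfold av at this
    rw [div_le_iff₀ fac_pos]
    linarith
  have h5 : (1 / δ) * av (fun σ => (F σ - av F) ^ 2) ≤ (1 / δ) * (4 * n * L ^ 2) :=
    mul_le_mul_of_nonneg_left h4 (by positivity)
  have h6 : (1 / δ) * (4 * n * L ^ 2) = 4 * n * L ^ 2 / δ := by ring
  linarith

end Pool.Agent.K4H82.DG
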