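import Mathlib
import Pool.Agent.K4H82.DG.Comp

set_option autoImplicit false

namespace Pool.Agent.K4H82.DG

open SimpleGraph

section

variable {V A : Type} (step : A → V → V)

/-- `Pth d x a z c`: there is a reduced walk with `d` steps from `x` (where we came by the letter
`a`) to `z`, the last letter used being `c`. -/
inductive Pth : ℕ → V → A → V → A → Prop
  | refl (x : V) (a : A) : Pth 0 x a x a
  | snoc {d : ℕ} {x : V} {a : A} {z : V} {c : A} (b : A) (h : Pth d x a z c) (hb : b ≠ c) :
      Pth (d + 1) x a (step b z) b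

lemma Pth.cons {d : ℕ} {x : V} {a : A} {z : V} {c b : A} (hb : b ≠ a)
    (h : Pth step d (step b x) b z c) : Pth step (d + 1) x a z c := by
  generalize hy : step b x = y at h
  induction h with
  | refl y b => subst hy; exact Pth.snoc b (Pth.refl x a) hb
  | snoc b' h hb' ih => exact Pth.snoc b' (ih hb hy) hb'

/-- there is a reduced walk of length `r` from `x` (where we came by the letter `a`), all of whose
vertices after `x` lie in `S` -/
def Live : ℕ → V → A → Set V → Prop
  | 0, _, _, _ => True
  | r + 1, x, a, S => ∃ b, b ≠ a ∧ step b x ∈ S ∧ Live r (step b x) b S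

/-- exploration inside `S` -/
inductive Expl (S : Set V) (x : V) (a : A) : ℕ → V → A → Prop
  | base : Expl S x a 0 x a
  | next {d : ℕ} {z : V} {c : A} (b : A) (h : Expl S x a d z c) (hb : b ≠ c)
      (hS : step b z ∈ S) : Expl S x a (d + 1) (step b z) b

variable {step}

lemma Expl.pth {S : Set V} {x : V} {a : A} {d : ℕ} {z : V} {c : A}
    (h : Expl step S x a d z c) : Pth step d x a z c := by
  induction h with
  | base => exact Pth.refl x a
  | next b h hb hS ih => exact Pth.snoc b ih hb

lemma Expl.live {S : Set V} {x : V} {a : A} {d : ℕ} {z : V} {c : A}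
    (h : Expl step S x a d z c) : ∀ j, Live step j z c S → Live step (j + d) x a S := by
  induction h with
  | base => intro j hj; exact hj
  | next b h hb hS ih =>
    rename_i d' z' c'
    intro j hj
    have := ih (j + 1) ⟨b, hb, hS, hj⟩
    have e : j + (d' + 1) = j + 1 + d' := by ring
    rw [e]; exact this

/-- no reduced walk of length between `1` and `R` is closed -/
def Free (step : A → V → V) (R : ℕ) : Prop :=
  ∀ (d : ℕ) (x : V) (a : A) (z : V) (c : A), 1 ≤ d → d ≤ R → Pth step d x a z c → z ≠ x

/-- around `v`, up to distance `r + 1`, the graph is given by the steps -/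
def Bulk (step : A → V → V) (G : SimpleGraph V) (r : ℕ) (v : V) : Prop :=
  (∀ a, G.Adj v (step a v)) ∧ ∀ (a : A) (d : ℕ) (z : V) (c : A), d ≤ r →
    Pth step d (step a v) a z c → ∀ z', G.Adj z z' → ∃ b, z' = step b z

lemma closed {G : SimpleGraph V} (hinv : ∀ a x, step a (step a x) = x) {r : ℕ}
    (hF : Free step (r + 2)) {v : V} (hB : Bulk step G r v) {S : Set V} (hv : v ∉ S) {a b : A}
    (hab : a ≠ b) (ha : step a v ∈ S) (hb : step b v ∈ S)
    (hL : ¬ Live step r (step a v) a S) :
    ¬ (G.induce S).Reachable ⟨step a v, ha⟩ ⟨step b v, hb⟩ := by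
  have hd : ∀ d z c, Expl step S (step a v) a d z c → d < r ∨ r < d := by
    intro d z c h
    rcases lt_trichotomy d r with h1 | h1 | h1
    · exact Or.inl h1
    · exfalso
      subst h1
      have := h.live 0 trivial
      rw [zero_add] at this
      exact hL this
    · exact Or.inr h1
  -- exploration stays below depth `r`
  have hd' : ∀ d z c, Expl step S (step a v) a d z c → d < r := by
    intro d z c h
    induction h with
    | base =>
      rcases hd _ _ _ Expl.base with h1 | h1
      · exact h1
      · omega
    | next b' h hb' hS ih =>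
      rcases hd _ _ _ (Expl.next b' h hb' hS) with h1 | h1
      · exact h1
      · omega
  have key : ∀ (p q : S), (G.induce S).Reachable p q →
      (∃ d c, Expl step S (step a v) a d p.1 c) → ∃ d c, Expl step S (step a v) a d q.1 c := by
    intro p q hpq
    obtain ⟨w⟩ := hpq
    induction w with
    | nil => exact fun h => h
    | cons hadj w ih =>
      rename_i p1 p2 p3
      intro h
      refine ih ?_
      obtain ⟨d, c, h⟩ := h
      have hadj' : G.Adj p1.1 p2.1 := hadj
      obtain ⟨e, he⟩ := hB.2 a d p1.1 c (hd' _ _ _ h).le h.pth p2.1 hadj'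
      by_cases hec : e = c
      · subst hec
        generalize p1.1 = u at h he
        cases h with
        | base =>
          rw [hinv] at he
          exact absurd (he ▸ p2.2) hv
        | next b' h' hb' hS' =>
          rw [hinv] at he
          rw [he]
          exact ⟨_, _, h'⟩
      · refine ⟨d + 1, e, ?_⟩
        have hmem : step e p1.1 ∈ S := he ▸ p2.2
        rw [he]
        exact Expl.next e h hec hmem
  intro hreach
  obtain ⟨d, c, h⟩ := key _ _ hreach ⟨0, a, Expl.base⟩
  have hdr := hd' _ _ _ h
  simp only at h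
  have hp := h.pth
  generalize hy : step b v = y at hp
  cases hp with
  | refl x a' =>
    -- `step b v = step a v`
    have h1 : Pth step 1 v a (step b v) b := by
      have := Pth.snoc (step := step) b (Pth.refl v a) (Ne.symm hab)
      exact this
    have h2 : Pth step 2 v b (step b (step a v)) b :=
      Pth.snoc b (Pth.snoc a (Pth.refl v b) hab) (Ne.symm hab)
    refine hF 2 v b _ b (by norm_num) (by omega) h2 ?_
    rw [← hy, hinv]
  | snoc b' h' hb' =>
    rename_i d' z' c'
    by_cases hbc : b = c
    · subst hbc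
      -- then the previous vertex is `v`
      have hz' : z' = v := by
        have := congrArg (step b) hy
        rw [hinv, hinv] at this
        exact this.symm
      have h3 : Pth step (d' + 1) v b z' _ := Pth.cons step hab h'
      exact hF _ _ _ _ _ (by omega) (by omega) h3 hz'
    · have h3 : Pth step (d' + 1 + 1) v b (step c z') c :=
        Pth.cons step hab (Pth.snoc c h' hb')
      have h4 := Pth.snoc (step := step) b h3 hbc
      refine hF _ _ _ _ _ (by omega) (by omega) h4 ?_
      rw [← hy, hinv]

lemma bulk_Z [Finite V] {G : SimpleGraph V} (hinv : ∀ a x, step a (step a x) = x) {r : ℕ}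
    (hF : Free step (r + 2)) {v : V} (hB : Bulk step G r v) {S : Set V} (hv : v ∉ S)
    (I : Finset A) (hI : ∀ a ∈ I, step a v ∈ S)
    (hI2 : ∀ a ∈ I, ∀ b ∈ I, a ≠ b → ¬ Live step r (step a v) a S ∨
      ¬ Live step r (step b v) b S) :
    Z G (insert v S) + I.card ≤ Z G S + 1 := by
  have h := Z_insert (G := G) (S := S) (v := v) (I : Type)
    (fun a => ⟨step a.1 v, hI a.1 a.2⟩) (fun a => hB.1 a.1) (by
      intro a b hab
      have hab' : a.1 ≠ b.1 := fun h => hab (Subtype.ext h)
      rcases hI2 a.1 a.2 b.1 b.2 hab' with h1 | h1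
      · exact closed hinv hF hB hv hab' (hI a.1 a.2) (hI b.1 b.2) h1
      · intro h2
        exact closed hinv hF hB hv (Ne.symm hab') (hI b.1 b.2) (hI a.1 a.2) h1 h2.symm)
  simpa using h

open Classical in
/-- the main local inequality -/
lemma bulk_drift [Finite V] [Fintype A] {G : SimpleGraph V}
    (hinv : ∀ a x, step a (step a x) = x) {r : ℕ}
    (hF : Free step (r + 2)) {v : V} (hB : Bulk step G r v) {S : Set V} (hv : v ∉ S) (b : A) :
    (Z G (insert v S) : ℝ) +
      ((∑ a : A, if step a v ∈ S ∧ ¬ Live step r (step a v) a S then (1 : ℝ) else 0) +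
        (if Live step (r + 1) v b S then 1 else 0)) ≤ (Z G S : ℝ) + 1 := by
  rw [← Finset.sum_filter, Finset.sum_const, nsmul_eq_mul, mul_one]
  set I := Finset.univ.filter (fun a => step a v ∈ S ∧ ¬ Live step r (step a v) a S) with hIdef
  by_cases hL : Live step (r + 1) v b S
  · rw [if_pos hL]
    obtain ⟨a0, _, ha0, hL0⟩ := hL
    have hnot : a0 ∉ I := by
      rw [hIdef, Finset.mem_filter]
      exact fun h => h.2.2 hL0
    have h := bulk_Z hinv hF hB hv (insert a0 I) (by
      intro a ha
      rcases Finset.mem_insert.1 ha with rfl | ha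
      · exact ha0
      · exact (Finset.mem_filter.1 ha).2.1) (by
      intro a ha c hc hac
      rcases Finset.mem_insert.1 ha with rfl | ha
      · rcases Finset.mem_insert.1 hc with rfl | hc
        · exact absurd rfl hac
        · exact Or.inr (Finset.mem_filter.1 hc).2.2
      · exact Or.inl (Finset.mem_filter.1 ha).2.2)
    rw [Finset.card_insert_of_notMem hnot] at h
    have h' : ((Z G (insert v S) + (I.card + 1) : ℕ) : ℝ) ≤ ((Z G S + 1 : ℕ) : ℝ) := by
      exact_mod_cast h
    push_cast at h'
    linarith
  · rw [if_neg hL]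
    have h := bulk_Z hinv hF hB hv I (by
      intro a ha
      exact (Finset.mem_filter.1 ha).2.1) (by
      intro a ha c hc hac
      exact Or.inl (Finset.mem_filter.1 ha).2.2)
    have h' : ((Z G (insert v S) + I.card : ℕ) : ℝ) ≤ ((Z G S + 1 : ℕ) : ℝ) := by
      exact_mod_cast h
    push_cast at h'
    linarith

variable (step)

open Classical in
/-- the set of sites on which `Live r x a` depends -/
noncomputable def Dep [Fintype A] : ℕ → V → A → Finset V
  | 0, _, _ => ∅
  | r + 1, x, a => (Finset.univ.filter (fun b => b ≠ a)).biUnion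
      (fun b => insert (step b x) (Dep r (step b x) b))

/-- bound for the size of `Dep` -/
def dB (K : ℕ) : ℕ → ℕ
  | 0 => 0
  | r + 1 => K * (dB K r + 1)

variable {step}

lemma Dep_card [Fintype A] (r : ℕ) : ∀ (x : V) (a : A),
    (Dep step r x a).card ≤ dB (Fintype.card A) r := by
  classical
  induction r with
  | zero => intro x a; simp [Dep]
  | succ r ih =>
    intro x a
    unfold Dep dB
    refine Finset.card_biUnion_le.trans ?_
    refine (Finset.sum_le_card_nsmul _ _ (dB (Fintype.card A) r + 1) ?_).trans ?_
    · intro b _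
      exact (Finset.card_insert_le _ _).trans (Nat.succ_le_succ (ih _ _))
    · rw [smul_eq_mul]
      exact Nat.mul_le_mul_right _ (Finset.card_le_univ _)

lemma Dep_live [Fintype A] (r : ℕ) : ∀ (x : V) (a : A) (S S' : Set V),
    (∀ u ∈ Dep step r x a, (u ∈ S ↔ u ∈ S')) → (Live step r x a S ↔ Live step r x a S') := by
  classical
  induction r with
  | zero => intro x a S S' _; exact Iff.rfl
  | succ r ih =>
    intro x a S S' h
    unfold Live
    refine exists_congr (fun b => ?_)
    refine and_congr_right (fun hb => ?_)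
    have hmem : ∀ u, u ∈ insert (step b x) (Dep step r (step b x) b) →
        u ∈ Dep step (r + 1) x a := by
      intro u hu
      unfold Dep
      rw [Finset.mem_biUnion]
      exact ⟨b, by simp [hb], hu⟩
    refine and_congr (h _ (hmem _ (Finset.mem_insert_self _ _))) ?_
    exact ih _ _ _ _ (fun u hu => h u (hmem u (Finset.mem_insert_of_mem hu)))

lemma Dep_mem [Fintype A] (r : ℕ) : ∀ (x : V) (a : A) (u : V), u ∈ Dep step r x a →
    ∃ d c, 1 ≤ d ∧ d ≤ r ∧ Pth step d x a u c := by
  classical
  induction r with
  | zero => intro x a u h; simp [Dep] at h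
  | succ r ih =>
    intro x a u h
    unfold Dep at h
    rw [Finset.mem_biUnion] at h
    obtain ⟨b, hb, hu⟩ := h
    have hb' : b ≠ a := (Finset.mem_filter.1 hb).2
    rcases Finset.mem_insert.1 hu with rfl | hu
    · exact ⟨1, b, le_rfl, by omega, Pth.snoc b (Pth.refl x a) hb'⟩
    · obtain ⟨d, c, h1, h2, h3⟩ := ih _ _ _ hu
      exact ⟨d + 1, c, by omega, by omega, Pth.cons step hb' h3⟩

lemma not_mem_Dep [Fintype A] {r : ℕ} (hF : Free step r) (x : V) (a : A) :
    x ∉ Dep step r x a := by
  intro h
  obtain ⟨d, c, h1, h2, h3⟩ := Dep_mem r x a x h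
  exact hF d x a x c h1 h2 h3 rfl

lemma not_mem_Dep' [Fintype A] (hA : ∀ a : A, ∃ b, a ≠ b) {r : ℕ} (hF : Free step (r + 1))
    (v : V) (a : A) : v ∉ Dep step r (step a v) a := by
  intro h
  obtain ⟨d, c, h1, h2, h3⟩ := Dep_mem r (step a v) a v h
  obtain ⟨b, hb⟩ := hA a
  exact hF (d + 1) v b v c (by omega) (by omega) (Pth.cons step hb h3) rfl

lemma step_ne (hA : ∀ a : A, ∃ b, a ≠ b) (hF : Free step 1) (v : V) (a : A) : step a v ≠ v := by
  obtain ⟨b, hb⟩ := hA a
  exact hF 1 v b _ a le_rfl le_rfl (Pth.snoc a (Pth.refl v b) hb)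

end

end Pool.Agent.K4H82.DG
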