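import Mathlib
import Pool.Agent.K4H82.DG.Tree
import Pool.Agent.K4H82.DG.Av

set_option autoImplicit false

namespace Pool.Agent.K4H82.DG

open Equiv

section

variable {n : ℕ}

/-- the expected number of components at time `t` -/
noncomputable def aZ (G : SimpleGraph (Fin n)) (t : ℕ) : ℝ :=
  av (fun σ => (Z G (active σ t) : ℝ))

variable (T : Fin n)

lemma eN_add (g g' : Set (Fin n) → ℝ) (v : Fin n) :
    eN T (fun S => g S + g' S) v = eN T g v + eN T g' v := by
  classical
  unfold eN
  rw [← av_add]
  congr 1
  funext σ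
  split_ifs <;> simp

lemma eN_mul (c : ℝ) (g : Set (Fin n) → ℝ) (v : Fin n) :
    eN T (fun S => c * g S) v = c * eN T g v := by
  classical
  unfold eN
  rw [← av_mul]
  congr 1
  funext σ
  split_ifs <;> simp

lemma eN_sum' {ι : Type} (s : Finset ι) (g : ι → Set (Fin n) → ℝ) (v : Fin n) :
    eN T (fun S => ∑ i ∈ s, g i S) v = ∑ i ∈ s, eN T (g i) v := by
  classical
  unfold eN
  rw [← av_sum]
  congr 1
  funext σ
  split_ifs <;> simp

lemma eN_total (J : Fin n → Set (Fin n) → ℝ) :
    ∑ v, eN T (J v) v = av (fun σ => J (σ T) (active σ (T : ℕ))) := by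
  classical
  unfold eN
  rw [← av_sum]
  congr 1
  funext σ
  rw [Finset.sum_ite_eq]
  simp

variable {A : Type}

open Classical in
/-- indicator of `Live` -/
noncomputable def gL (step : A → Fin n → Fin n) (r : ℕ) (x : Fin n) (a : A) :
    Set (Fin n) → ℝ := fun S => if Live step r x a S then 1 else 0

lemma gL_nonneg (step : A → Fin n → Fin n) (r : ℕ) (x : Fin n) (a : A) (S : Set (Fin n)) :
    0 ≤ gL step r x a S := by
  unfold gL; split_ifs <;> norm_num

lemma gL_le_one (step : A → Fin n → Fin n) (r : ℕ) (x : Fin n) (a : A) (S : Set (Fin n)) :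
    gL step r x a S ≤ 1 := by
  unfold gL; split_ifs <;> norm_num

lemma gL_dep [Fintype A] (step : A → Fin n → Fin n) (r : ℕ) (x : Fin n) (a : A) :
    DependsOn' (gL step r x a) (Dep step r x a) := by
  intro S S' h
  unfold gL
  by_cases h1 : Live step r x a S
  · rw [if_pos h1, if_pos ((Dep_live r x a S S' h).1 h1)]
  · rw [if_neg h1, if_neg (fun h2 => h1 ((Dep_live r x a S S' h).2 h2))]

/-- average probability of `Live` -/
noncomputable def lam [Fintype A] (step : A → Fin n → Fin n) (t r : ℕ) : ℝ :=
  (∑ a : A, ∑ x : Fin n, av (fun σ => gL step r x a (active σ t))) / ((Fintype.card A : ℝ) * n)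

open Classical in
theorem drift [Fintype A] [Nonempty A] {step : A → Fin n → Fin n} {G : SimpleGraph (Fin n)}
    (hinv : ∀ a x, step a (step a x) = x) (hA : ∀ a : A, ∃ b, a ≠ b) {r : ℕ}
    (hF : Free step (r + 2)) (B : Finset (Fin n)) (hB : ∀ v, v ∉ B → Bulk step G r v) :
    aZ G ((T : ℕ) + 1) ≤ aZ G (T : ℕ) + 1 -
      (Fintype.card A : ℝ) * (((T : ℕ) : ℝ) / n) * (1 - lam step (T : ℕ) r) -
      lam step (T : ℕ) (r + 1) +
      (2 * (Fintype.card A : ℝ) * dB (Fintype.card A) r + dB (Fintype.card A) (r + 1) +
        ((Fintype.card A : ℝ) + 1) * B.card) / n := by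
  have hn : (0 : ℝ) < n := n_pos T
  set K : ℝ := (Fintype.card A : ℝ) with hK
  have hK0 : 0 < K := by
    rw [hK]
    exact_mod_cast Fintype.card_pos
  have hF1 : Free step 1 := fun d x a z c h1 h2 h3 => hF d x a z c h1 (by omega) h3
  have hFr : Free step r := fun d x a z c h1 h2 h3 => hF d x a z c h1 (by omega) h3
  have hFr1 : Free step (r + 1) := fun d x a z c h1 h2 h3 => hF d x a z c h1 (by omega) h3
  let h : A → Fin n → Set (Fin n) → ℝ := fun a v S =>
    if step a v ∈ S ∧ ¬ Live step r (step a v) a S then 1 else 0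
  let J : Fin n → Set (Fin n) → ℝ := fun v S =>
    (∑ a, h a v S) + (1 / K) * ∑ b, gL step (r + 1) v b S
  have hJle : ∀ v S, J v S ≤ K + 1 := by
    intro v S
    have h1 : ∑ a, h a v S ≤ K := by
      calc ∑ a, h a v S ≤ ∑ a : A, (1 : ℝ) := by
            apply Finset.sum_le_sum
            intro a _
            simp only [h]
            split_ifs <;> norm_num
        _ = K := by simp [hK]
    have h2 : ∑ b, gL step (r + 1) v b S ≤ K := by
      calc ∑ b, gL step (r + 1) v b S ≤ ∑ a : A, (1 : ℝ) :=
            Finset.sum_le_sum (fun a _ => gL_le_one _ _ _ _ _)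
        _ = K := by simp [hK]
    have h3 : (1 / K) * ∑ b, gL step (r + 1) v b S ≤ 1 := by
      calc (1 / K) * ∑ b, gL step (r + 1) v b S ≤ (1 / K) * K :=
            mul_le_mul_of_nonneg_left h2 (by positivity)
        _ = 1 := by field_simp
    simp only [J]
    linarith
  have hpt : ∀ (v : Fin n) (S : Set (Fin n)), v ∉ S →
      (Z G (insert v S) : ℝ) + J v S ≤ (Z G S : ℝ) + 1 + (if v ∈ B then K + 1 else 0) := by
    intro v S hv
    by_cases hvB : v ∈ B
    · rw [if_pos hvB]
      have h1 : (Z G (insert v S) : ℝ) ≤ (Z G S : ℝ) + 1 := by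
        exact_mod_cast (Z_insert_le (G := G) (S := S) (v := v))
      linarith [hJle v S]
    · rw [if_neg hvB, add_zero]
      have h1 : ∀ b : A, ((Z G (insert v S) : ℝ) + ∑ a, h a v S) + gL step (r + 1) v b S ≤
          (Z G S : ℝ) + 1 := by
        intro b
        have := bulk_drift hinv hF (hB v hvB) hv b
        simp only [h]
        unfold gL
        linarith
      have h2 := Finset.sum_le_sum (fun b (_ : b ∈ (Finset.univ : Finset A)) => h1 b)
      rw [Finset.sum_add_distrib, Finset.sum_const, Finset.sum_const, Finset.card_univ,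
        nsmul_eq_mul, nsmul_eq_mul, ← hK] at h2
      simp only [J]
      have h3 : (1 / K) * (K * ((Z G (insert v S) : ℝ) + ∑ a, h a v S) +
          ∑ b, gL step (r + 1) v b S) ≤ (1 / K) * (K * ((Z G S : ℝ) + 1)) :=
        mul_le_mul_of_nonneg_left h2 (by positivity)
      have h4 : (1 / K) * (K * ((Z G S : ℝ) + 1)) = (Z G S : ℝ) + 1 := by field_simp
      have h5 : (1 / K) * (K * ((Z G (insert v S) : ℝ) + ∑ a, h a v S) +
          ∑ b, gL step (r + 1) v b S) = ((Z G (insert v S) : ℝ) + ∑ a, h a v S) +
          (1 / K) * ∑ b, gL step (r + 1) v b S := by field_simp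
      rw [h4, h5] at h3
      linarith
  -- averages
  have havB : av (fun σ : Perm (Fin n) => if σ T ∈ B then K + 1 else 0) =
      (K + 1) * B.card / n := by
    have h1 := eN_total T (fun v _ => if v ∈ B then K + 1 else 0)
    rw [← h1]
    have h2 : ∀ v, eN T (fun _ => if v ∈ B then K + 1 else 0) v =
        (if v ∈ B then (K + 1) * (1 / n) else 0) := by
      intro v
      split_ifs with hv
      · have := eN_mul T (K + 1) (fun _ => 1) v
        rw [eN_one] at this
        rw [← this]
        simp
      · unfold eN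
        simp [av]
    rw [Finset.sum_congr rfl (fun v _ => h2 v), ← Finset.sum_filter, Finset.sum_const]
    simp only [Finset.filter_mem_eq_inter, Finset.univ_inter]
    rw [nsmul_eq_mul]
    ring
  have hmain : aZ G ((T : ℕ) + 1) + av (fun σ => J (σ T) (active σ (T : ℕ))) ≤
      aZ G (T : ℕ) + 1 + (K + 1) * B.card / n := by
    have h1 : av (fun σ : Perm (Fin n) => (Z G (active σ ((T : ℕ) + 1)) : ℝ) +
        J (σ T) (active σ (T : ℕ))) ≤ av (fun σ : Perm (Fin n) =>
        ((Z G (active σ (T : ℕ)) : ℝ) + 1) + (if σ T ∈ B then K + 1 else 0)) := by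
      apply av_mono
      intro σ
      rw [active_succ]
      exact hpt (σ T) _ (not_mem_active σ T)
    have e1 := av_add (fun σ : Perm (Fin n) => (Z G (active σ ((T : ℕ) + 1)) : ℝ))
      (fun σ => J (σ T) (active σ (T : ℕ)))
    have e2 := av_add (fun σ : Perm (Fin n) => ((Z G (active σ (T : ℕ)) : ℝ) + 1))
      (fun σ => (if σ T ∈ B then K + 1 else 0))
    have e3 := av_add (fun σ : Perm (Fin n) => (Z G (active σ (T : ℕ)) : ℝ)) (fun _ => 1)
    rw [e1, e2, e3, av_const, havB] at h1
    exact h1
  -- lower bound for the average of `J`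
  have hJav : (n : ℝ) * av (fun σ => J (σ T) (active σ (T : ℕ))) ≥
      K * (((T : ℕ) : ℝ) / n) * (n * (1 - lam step (T : ℕ) r)) + n * lam step (T : ℕ) (r + 1) -
        (2 * K * dB (Fintype.card A) r + dB (Fintype.card A) (r + 1)) := by
    rw [← eN_total T J]
    have hJv : ∀ v, eN T (J v) v = (∑ a, eN T (h a v) v) +
        (1 / K) * ∑ b, eN T (gL step (r + 1) v b) v := by
      intro v
      simp only [J]
      rw [eN_add, eN_sum', eN_mul, eN_sum']
    rw [Finset.sum_congr rfl (fun v _ => hJv v), Finset.sum_add_distrib, ← Finset.mul_sum,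
      mul_add]
    have hI : (n : ℝ) * ∑ v, ∑ a, eN T (h a v) v ≥
        K * (((T : ℕ) : ℝ) / n) * (n * (1 - lam step (T : ℕ) r)) -
        2 * K * dB (Fintype.card A) r := by
      have h1 : ∀ v a, ((T : ℕ) : ℝ) / n * (1 - av (fun σ => gL step r (step a v) a
          (active σ (T : ℕ)))) - 2 * dB (Fintype.card A) r / n ≤ n * eN T (h a v) v := by
        intro v a
        have h2 := eN_joint T (g := fun S => 1 - gL step r (step a v) a S)
          (fun S => by linarith [gL_le_one step r (step a v) a S])
          (fun S => by linarith [gL_nonneg step r (step a v) a S])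
          (D := Dep step r (step a v) a)
          (fun S S' hS => by
            change 1 - _ = 1 - _
            rw [gL_dep step r (step a v) a S S' hS])
          (Dep_card r (step a v) a) (not_mem_Dep' hA hFr1 v a)
          (not_mem_Dep hFr (step a v) a) (step_ne hA hF1 v a) (h a v)
          (by
            intro S hS
            simp only [h]
            unfold gL
            by_cases hL : Live step r (step a v) a S
            · rw [if_neg (fun h' => h'.2 hL), if_pos hL]; ring
            · rw [if_pos ⟨hS, hL⟩, if_neg hL]; ring)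
          (by
            intro S hS
            simp only [h]
            rw [if_neg (fun h' => hS h'.1)])
        rw [av_sub, av_const] at h2
        exact h2
      rw [Finset.mul_sum]
      simp_rw [Finset.mul_sum]
      have h3 : ∑ v : Fin n, ∑ a : A, (((T : ℕ) : ℝ) / n * (1 - av (fun σ =>
          gL step r (step a v) a (active σ (T : ℕ)))) - 2 * dB (Fintype.card A) r / n) =
          K * (((T : ℕ) : ℝ) / n) * (n * (1 - lam step (T : ℕ) r)) -
          2 * K * dB (Fintype.card A) r := by
        rw [Finset.sum_comm]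
        have h4 : ∀ a : A, ∑ v : Fin n, (((T : ℕ) : ℝ) / n * (1 - av (fun σ =>
            gL step r (step a v) a (active σ (T : ℕ)))) - 2 * dB (Fintype.card A) r / n) =
            ((T : ℕ) : ℝ) / n * (n - ∑ x : Fin n, av (fun σ =>
            gL step r x a (active σ (T : ℕ)))) - 2 * dB (Fintype.card A) r := by
          intro a
          rw [Finset.sum_sub_distrib, ← Finset.mul_sum, Finset.sum_sub_distrib,
            Finset.sum_const, Finset.sum_const, Finset.card_univ, Fintype.card_fin,
            nsmul_eq_mul, nsmul_eq_mul, mul_one]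
          have h5 : ∑ v : Fin n, av (fun σ => gL step r (step a v) a (active σ (T : ℕ))) =
              ∑ x : Fin n, av (fun σ => gL step r x a (active σ (T : ℕ))) := by
            let e : Fin n ≃ Fin n := ⟨step a, step a, hinv a, hinv a⟩
            exact Equiv.sum_comp e (fun x => av (fun σ => gL step r x a (active σ (T : ℕ))))
          rw [h5]
          have h6 : (n : ℝ) * (2 * dB (Fintype.card A) r / n) = 2 * dB (Fintype.card A) r := by
            field_simp
          rw [h6]
        rw [Finset.sum_congr rfl (fun a _ => h4 a), Finset.sum_sub_distrib, ← Finset.mul_sum,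
          Finset.sum_sub_distrib, Finset.sum_const, Finset.sum_const, Finset.card_univ,
          nsmul_eq_mul, nsmul_eq_mul, ← hK]
        unfold lam
        rw [← hK]
        field_simp
      rw [← h3]
      exact Finset.sum_le_sum (fun v _ => Finset.sum_le_sum (fun a _ => h1 v a))
    have hII : (n : ℝ) * ((1 / K) * ∑ v, ∑ b, eN T (gL step (r + 1) v b) v) ≥
        n * lam step (T : ℕ) (r + 1) - dB (Fintype.card A) (r + 1) := by
      have h1 : ∀ v b, av (fun σ => gL step (r + 1) v b (active σ (T : ℕ))) -
          dB (Fintype.card A) (r + 1) / n ≤ n * eN T (gL step (r + 1) v b) v := by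
        intro v b
        exact eN_ge T (gL_nonneg _ _ _ _) (gL_le_one _ _ _ _) (gL_dep step (r + 1) v b)
          (Dep_card (r + 1) v b) (not_mem_Dep hFr1 v b)
      have h2 : ∑ v : Fin n, ∑ b : A, (av (fun σ => gL step (r + 1) v b (active σ (T : ℕ))) -
          dB (Fintype.card A) (r + 1) / n) ≤ n * ∑ v, ∑ b, eN T (gL step (r + 1) v b) v := by
        rw [Finset.mul_sum]
        simp_rw [Finset.mul_sum]
        exact Finset.sum_le_sum (fun v _ => Finset.sum_le_sum (fun a _ => h1 v a))
      have h3 : ∑ v : Fin n, ∑ b : A, (av (fun σ => gL step (r + 1) v b (active σ (T : ℕ))) -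
          dB (Fintype.card A) (r + 1) / n) = K * (n * lam step (T : ℕ) (r + 1) -
          dB (Fintype.card A) (r + 1)) := by
        rw [Finset.sum_comm]
        simp_rw [Finset.sum_sub_distrib]
        rw [Finset.sum_const, Finset.sum_const, Finset.card_univ, Finset.card_univ,
          Fintype.card_fin, nsmul_eq_mul, nsmul_eq_mul, ← hK]
        unfold lam
        rw [← hK]
        field_simp
      rw [h3] at h2
      have h4 : (1 / K) * (K * (n * lam step (T : ℕ) (r + 1) -
          dB (Fintype.card A) (r + 1))) ≤ (1 / K) * (n * ∑ v, ∑ b, eN T (gL step (r + 1) v b) v) :=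
        mul_le_mul_of_nonneg_left h2 (by positivity)
      have h5 : (1 / K) * (K * (n * lam step (T : ℕ) (r + 1) -
          dB (Fintype.card A) (r + 1))) = n * lam step (T : ℕ) (r + 1) -
          dB (Fintype.card A) (r + 1) := by field_simp
      rw [h5] at h4
      calc n * lam step (T : ℕ) (r + 1) - dB (Fintype.card A) (r + 1) ≤
          (1 / K) * (n * ∑ v, ∑ b, eN T (gL step (r + 1) v b) v) := h4
        _ = (n : ℝ) * ((1 / K) * ∑ v, ∑ b, eN T (gL step (r + 1) v b) v) := by ring
    linarith
  -- conclusion
  set EJ := av (fun σ => J (σ T) (active σ (T : ℕ)))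
  have hfin : EJ ≥ K * (((T : ℕ) : ℝ) / n) * (1 - lam step (T : ℕ) r) +
      lam step (T : ℕ) (r + 1) -
      (2 * K * dB (Fintype.card A) r + dB (Fintype.card A) (r + 1)) / n := by
    have h1 : (n : ℝ) * EJ ≥ n * (K * (((T : ℕ) : ℝ) / n) * (1 - lam step (T : ℕ) r) +
      lam step (T : ℕ) (r + 1) -
      (2 * K * dB (Fintype.card A) r + dB (Fintype.card A) (r + 1)) / n) := by
      have h2 : (n : ℝ) * (K * (((T : ℕ) : ℝ) / n) * (1 - lam step (T : ℕ) r) +
        lam step (T : ℕ) (r + 1) -
        (2 * K * dB (Fintype.card A) r + dB (Fintype.card A) (r + 1)) / n) =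
        K * (((T : ℕ) : ℝ) / n) * (n * (1 - lam step (T : ℕ) r)) + n * lam step (T : ℕ) (r + 1) -
        (2 * K * dB (Fintype.card A) r + dB (Fintype.card A) (r + 1)) := by
        field_simp
      rw [h2]
      exact hJav
    exact le_of_mul_le_mul_left h1 hn
  have h7 : (2 * K * dB (Fintype.card A) r + dB (Fintype.card A) (r + 1) +
        (K + 1) * B.card) / n = (2 * K * dB (Fintype.card A) r +
        dB (Fintype.card A) (r + 1)) / n + (K + 1) * B.card / n := by ring
  rw [h7]
  linarith

end

end Pool.Agent.K4H82.DG
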