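import Mathlib
import Pool.Agent.K4H82.DG.Drift
import Pool.Agent.K4H82.DG.Conc

set_option autoImplicit false

namespace Pool.Agent.K4H82.DG

open Equiv

section

variable {n : ℕ}

lemma lam_nonneg {A : Type} [Fintype A] (step : A → Fin n → Fin n) (t r : ℕ) :
    0 ≤ lam step t r := by
  unfold lam
  apply div_nonneg _ (by positivity)
  exact Finset.sum_nonneg (fun a _ => Finset.sum_nonneg (fun x _ =>
    av_nonneg (fun σ => gL_nonneg _ _ _ _ _)))

lemma lam_le_one {A : Type} [Fintype A] (step : A → Fin n → Fin n) (t r : ℕ) :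
    lam step t r ≤ 1 := by
  unfold lam
  apply div_le_one_of_le₀ _ (by positivity)
  calc ∑ a : A, ∑ x : Fin n, av (fun σ => gL step r x a (active σ t)) ≤
      ∑ a : A, ∑ x : Fin n, (1 : ℝ) := by
        apply Finset.sum_le_sum; intro a _
        apply Finset.sum_le_sum; intro x _
        have := av_mono (F := fun σ => gL step r x a (active σ t)) (F' := fun _ => 1)
          (fun σ => gL_le_one _ _ _ _ _)
        rwa [av_const] at this
    _ = (Fintype.card A : ℝ) * n := by simp

lemma aZ_zero (G : SimpleGraph (Fin n)) : aZ G 0 = 0 := by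
  unfold aZ
  have : ∀ σ : Perm (Fin n), (Z G (active σ 0) : ℝ) = 0 := by
    intro σ
    rw [active_zero, Z_empty]; simp
  simp_rw [this]
  exact av_const 0

/-- bound for the expected number of components at any fixed time -/
theorem aZ_le {A : Type} [Fintype A] [Nonempty A] {step : A → Fin n → Fin n}
    {G : SimpleGraph (Fin n)}
    (hinv : ∀ a x, step a (step a x) = x) (hA : ∀ a : A, ∃ b, a ≠ b) {R : ℕ} (hR : 1 ≤ R)
    (hF : Free step (R + 1)) (B : Finset (Fin n)) (hB : ∀ v, v ∉ B → Bulk step G R v)
    {C : ℝ} (hC : ∀ r < R, (2 * (Fintype.card A : ℝ) * dB (Fintype.card A) r +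
      dB (Fintype.card A) (r + 1) + ((Fintype.card A : ℝ) + 1) * B.card) ≤ C)
    {t : ℕ} (ht : t ≤ n) :
    aZ G t ≤ (n : ℝ) / (2 * Fintype.card A) + 1 + n / R + C := by
  rcases Nat.eq_zero_or_pos n with hn0 | hn0
  · have h0 : t = 0 := by omega
    have hC0 : 0 ≤ C := by
      refine le_trans ?_ (hC 0 (by omega))
      positivity
    subst h0
    rw [aZ_zero]
    have : (0 : ℝ) ≤ (n : ℝ) / (2 * Fintype.card A) := by positivity
    have h2 : (0 : ℝ) ≤ (n : ℝ) / R := by positivity
    linarith
  have hn : (0 : ℝ) < n := by exact_mod_cast hn0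
  set K : ℝ := (Fintype.card A : ℝ) with hK
  have hK0 : 0 < K := by
    rw [hK]
    exact_mod_cast Fintype.card_pos
  have hRr : (0 : ℝ) < (R : ℝ) := by exact_mod_cast hR
  have hC0 : 0 ≤ C := by
    refine le_trans ?_ (hC 0 (by omega))
    positivity
  let f : ℕ → ℝ := fun s => max 0 (1 - K * (s / n))
  -- one step
  have hstep : ∀ s, s < n → aZ G (s + 1) ≤ aZ G s + f s + 1 / R + C / n := by
    intro s hs
    have h1 : ∀ r ∈ Finset.range R, aZ G (s + 1) - aZ G s ≤
        f s + C / n + (lam step s r - lam step s (r + 1)) := by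
      intro r hr
      have hr' := Finset.mem_range.1 hr
      have h2 := drift (G := G) ⟨s, hs⟩ hinv hA (r := r)
        (fun d x a z c h1 h2 h3 => hF d x a z c h1 (by omega) h3) B
        (fun v hv => ⟨(hB v hv).1, fun a d z c hd => (hB v hv).2 a d z c (by omega)⟩)
      simp only at h2
      have h3 : (2 * K * dB (Fintype.card A) r + dB (Fintype.card A) (r + 1) +
        (K + 1) * B.card) / n ≤ C / n := div_le_div_of_nonneg_right (hC r hr') hn.le
      have h4 : 1 - K * ((s : ℝ) / n) * (1 - lam step s r) - lam step s (r + 1) ≤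
          f s + (lam step s r - lam step s (r + 1)) := by
        have l0 := lam_nonneg step s r
        have l1 := lam_le_one step s r
        have f0 : 0 ≤ f s := le_max_left _ _
        have f1 : 1 - K * (s / n) ≤ f s := le_max_right _ _
        set q := K * ((s : ℝ) / n)
        rcases le_total q 1 with hq | hq
        · nlinarith
        · nlinarith
      linarith
    have h5 := Finset.sum_le_sum h1
    rw [Finset.sum_add_distrib, Finset.sum_range_sub', Finset.sum_const, Finset.sum_const,
      Finset.card_range, nsmul_eq_mul, nsmul_eq_mul] at h5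
    have l0 := lam_nonneg step s R
    have l1 := lam_le_one step s 0
    have h6 : (R : ℝ) * (aZ G (s + 1) - aZ G s) ≤ R * (f s + C / n + 1 / R) := by
      have : (R : ℝ) * (f s + C / n + 1 / R) = R * (f s + C / n) + 1 := by
        field_simp
      rw [this]; linarith
    have h7 := le_of_mul_le_mul_left h6 hRr
    linarith
  have hind : ∀ s, s ≤ n → aZ G s ≤ (n / (2 * K)) * (1 - f s ^ 2) + (1 - f s) +
      s * (1 / R + C / n) := by
    intro s
    induction s with
    | zero =>
      intro _
      rw [aZ_zero]
      simp only [f]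
      norm_num
    | succ s ih =>
      intro hs
      have h1 := ih (by omega)
      have h2 := hstep s (by omega)
      have h3 : f (s + 1) ≤ (n / (2 * K)) * (f s ^ 2 - f (s + 1) ^ 2) := by
        simp only [f]
        rcases le_total (1 - K * (((s + 1 : ℕ) : ℝ) / n)) 0 with h | h
        · rw [max_eq_left h]
          have : 0 ≤ (n : ℝ) / (2 * K) := by positivity
          have h4 : 0 ≤ max 0 (1 - K * ((s : ℝ) / n)) ^ 2 := by positivity
          nlinarith
        · have hs1 : 0 ≤ 1 - K * ((s : ℝ) / n) := by
            push_cast at h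
            have : K * ((s : ℝ) / n) ≤ K * (((s : ℝ) + 1) / n) := by
              apply mul_le_mul_of_nonneg_left _ hK0.le
              apply div_le_div_of_nonneg_right _ hn.le
              linarith
            linarith
          rw [max_eq_right h, max_eq_right hs1]
          push_cast
          have e1 : (n / (2 * K)) * ((1 - K * ((s : ℝ) / n)) ^ 2 -
              (1 - K * (((s : ℝ) + 1) / n)) ^ 2) = 1 - K * (((s : ℝ) + 1) / n) + K / (2 * n) := by
            field_simp
            ring
          rw [e1]
          have : 0 ≤ K / (2 * n) := by positivity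
          linarith
      push_cast
      nlinarith
  have h1 := hind t ht
  have hf0 : 0 ≤ f t := le_max_left _ _
  have hf2 : 0 ≤ f t ^ 2 := sq_nonneg _
  have htn : (t : ℝ) ≤ n := by exact_mod_cast ht
  have h2 : (t : ℝ) * (1 / R + C / n) ≤ n * (1 / R + C / n) :=
    mul_le_mul_of_nonneg_right htn (by positivity)
  have h3 : (n : ℝ) * (1 / R + C / n) = n / R + C := by field_simp
  have h4 : ((n : ℝ) / (2 * K)) * (1 - f t ^ 2) ≤ (n / (2 * K)) * 1 :=
    mul_le_mul_of_nonneg_left (by linarith) (by positivity)
  linarith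

lemma Z_exch {G : SimpleGraph (Fin n)} {D : ℕ} (hD : ∀ v, Nat.card (G.neighborSet v) ≤ D)
    (U : Set (Fin n)) (a b : Fin n) :
    (Z G (insert a U) : ℝ) ≤ (Z G (insert b U) : ℝ) + (D + 1) := by
  have h1 := Z_insert_le (G := G) (S := U) (v := a)
  have h2 := Z_le_insert (G := G) (S := U) (v := b)
  have h3 := hD b
  have h4 : Z G (insert a U) ≤ Z G (insert b U) + (D + 1) := by omega
  exact_mod_cast h4

lemma Z_lip {G : SimpleGraph (Fin n)} {D : ℕ} (hD : ∀ v, Nat.card (G.neighborSet v) ≤ D)
    (t : ℕ) (σ : Perm (Fin n)) (a b : Fin n) :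
    |(Z G (active (swap a b * σ) t) : ℝ) - (Z G (active σ t) : ℝ)| ≤ (D : ℝ) + 1 := by
  have key : ∀ a b : Fin n, a ∈ active σ t → b ∉ active σ t →
      |(Z G (active (swap a b * σ) t) : ℝ) - (Z G (active σ t) : ℝ)| ≤ (D : ℝ) + 1 := by
    intro a b ha hb
    have hab : a ≠ b := fun h => hb (h ▸ ha)
    have h1 : active σ t = insert a (active σ t \ {a}) := by
      rw [Set.insert_sdiff_singleton, Set.insert_eq_of_mem ha]
    have h2 : active (swap a b * σ) t = insert b (active σ t \ {a}) := by
      ext u
      rw [mem_active_mul, Equiv.symm_swap, Set.mem_insert_iff, Set.mem_sdiff,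
        Set.mem_singleton_iff]
      by_cases hua : u = a
      · subst hua
        rw [swap_apply_left]
        constructor
        · intro h; exact absurd h hb
        · rintro (h | h)
          · exact absurd h hab
          · exact absurd rfl h.2
      · by_cases hub : u = b
        · subst hub
          rw [swap_apply_right]
          exact ⟨fun _ => Or.inl rfl, fun _ => ha⟩
        · rw [swap_apply_of_ne_of_ne hua hub]
          constructor
          · intro h; exact Or.inr ⟨h, hua⟩
          · rintro (h | h)
            · exact absurd h hub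
            · exact h.1
    rw [h2]
    nth_rewrite 2 [h1]
    rw [abs_le]
    constructor
    · have := Z_exch hD (active σ t \ {a}) a b
      linarith
    · have := Z_exch hD (active σ t \ {a}) b a
      linarith
  by_cases ha : a ∈ active σ t <;> by_cases hb : b ∈ active σ t
  · have h : active (swap a b * σ) t = active σ t := by
      ext u
      rw [mem_active_mul, Equiv.symm_swap]
      by_cases hua : u = a
      · subst hua; rw [swap_apply_left]; exact ⟨fun _ => ha, fun _ => hb⟩
      · by_cases hub : u = b
        · subst hub; rw [swap_apply_right]; exact ⟨fun _ => hb, fun _ => ha⟩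
        · rw [swap_apply_of_ne_of_ne hua hub]
    rw [h]; simp; positivity
  · exact key a b ha hb
  · rw [swap_comm]
    exact key b a hb ha
  · have h : active (swap a b * σ) t = active σ t := by
      ext u
      rw [mem_active_mul, Equiv.symm_swap]
      by_cases hua : u = a
      · subst hua; rw [swap_apply_left]; exact ⟨fun h => absurd h hb, fun h => absurd h ha⟩
      · by_cases hub : u = b
        · subst hub; rw [swap_apply_right]; exact ⟨fun h => absurd h ha, fun h => absurd h hb⟩
        · rw [swap_apply_of_ne_of_ne hua hub]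
    rw [h]; simp; positivity

lemma Z_growth {G : SimpleGraph (Fin n)} (σ : Perm (Fin n)) (s j : ℕ) (h : s + j ≤ n) :
    (Z G (active σ (s + j)) : ℝ) ≤ (Z G (active σ s) : ℝ) + j := by
  induction j with
  | zero => simp
  | succ j ih =>
    have h1 := ih (by omega)
    have h2 := active_succ σ ⟨s + j, by omega⟩
    simp only at h2
    have e : s + (j + 1) = s + j + 1 := by ring
    rw [e, h2]
    have h3 : (Z G (insert (σ ⟨s + j, by omega⟩) (active σ (s + j))) : ℝ) ≤
        (Z G (active σ (s + j)) : ℝ) + 1 := by
      exact_mod_cast (Z_insert_le (G := G))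
    push_cast
    linarith

theorem value_le {G : SimpleGraph (Fin n)} {D : ℕ} (hD : ∀ v, Nat.card (G.neighborSet v) ≤ D)
    {a : ℝ} (ha : ∀ t ≤ n, aZ G t ≤ a) {M : ℕ} (hM : 1 ≤ M) {δ : ℝ} (hδ : 0 < δ)
    {A : Perm (Fin n) → ℕ} (hA : ∀ σ, A σ ≤ n) :
    value G A ≤ a + (n / M + 1) + (M + 1) * (δ + 4 * n * ((D : ℝ) + 1) ^ 2 / δ) := by
  set q : ℕ := n / M + 1 with hq
  have hqpos : 0 < q := Nat.succ_pos _
  have hv : value G A = av (fun σ => (Z G (active σ (A σ)) : ℝ)) := rfl
  have hpt : ∀ σ, (Z G (active σ (A σ)) : ℝ) ≤ (a + q) +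
      ∑ j ∈ Finset.range (M + 1), |(Z G (active σ (j * q)) : ℝ) - aZ G (j * q)| := by
    intro σ
    set t := A σ with ht
    have htn : t ≤ n := hA σ
    set j := t / q with hj
    have hjM : j ∈ Finset.range (M + 1) := by
      rw [Finset.mem_range]
      have h1 : n < M * q := by
        have := Nat.lt_mul_div_succ n (show 0 < M by omega)
        rw [hq]; exact this
      have h2 : j * q ≤ t := Nat.div_mul_le_self t q
      by_contra hcon
      have h3 : M * q ≤ j * q := Nat.mul_le_mul_right q (by omega)
      omega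
    have h2 : j * q ≤ t := Nat.div_mul_le_self t q
    have h3 : t < j * q + q := by
      have := Nat.lt_div_mul_add (a := t) hqpos
      exact this
    obtain ⟨i, hi⟩ := Nat.exists_eq_add_of_le h2
    have h4 := Z_growth (G := G) σ (j * q) i (by omega)
    rw [← hi] at h4
    have h5 : (i : ℝ) ≤ q := by
      have : i ≤ q := by omega
      exact_mod_cast this
    have h6 : |(Z G (active σ (j * q)) : ℝ) - aZ G (j * q)| ≤
        ∑ j ∈ Finset.range (M + 1), |(Z G (active σ (j * q)) : ℝ) - aZ G (j * q)| :=
      Finset.single_le_sum (f := fun j => |(Z G (active σ (j * q)) : ℝ) - aZ G (j * q)|)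
        (fun _ _ => abs_nonneg _) hjM
    have h7 := le_abs_self ((Z G (active σ (j * q)) : ℝ) - aZ G (j * q))
    have h8 := ha (j * q) (by omega)
    linarith
  rw [hv]
  refine (av_mono hpt).trans ?_
  rw [av_add (fun _ => a + q), av_const, av_sum]
  have h9 : ∑ j ∈ Finset.range (M + 1),
      av (fun σ => |(Z G (active σ (j * q)) : ℝ) - aZ G (j * q)|) ≤
      (M + 1) * (δ + 4 * n * ((D : ℝ) + 1) ^ 2 / δ) := by
    refine (Finset.sum_le_card_nsmul _ _ _ (fun j _ =>
      dev_perm ((D : ℝ) + 1) (by positivity) (fun σ => (Z G (active σ (j * q)) : ℝ))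
        (fun σ a b => Z_lip hD (j * q) σ a b) hδ)).trans ?_
    rw [Finset.card_range, nsmul_eq_mul]
    push_cast
    exact le_rfl
  have h10 : (q : ℝ) ≤ n / M + 1 := by
    rw [hq]
    push_cast
    have := Nat.cast_div_le (α := ℝ) (m := n) (n := M)
    linarith
  linarith

lemma m_le {G : SimpleGraph (Fin n)} (hn : 1 ≤ n) {a : ℝ}
    (h : ∀ A : Perm (Fin n) → ℕ, IsStopping A → value G A ≤ a) : m G ≤ a := by
  unfold m
  apply csSup_le
  · refine ⟨value G (fun _ => 1), fun _ => 1, ⟨fun σ => ⟨le_rfl, hn⟩, fun _ _ _ => rfl⟩, rfl⟩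
  · rintro x ⟨A, hA, rfl⟩
    exact h A hA

end

end Pool.Agent.K4H82.DG
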