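import Mathlib
import Pool.Agent.K4H82.DG.Upper

set_option autoImplicit false

namespace Pool.Agent.K4H82.DG

open Equiv

section

variable {n : ℕ}

open Classical in
/-- ordered adjacent pairs inside `S` -/
noncomputable def pairs (G : SimpleGraph (Fin n)) (S : Finset (Fin n)) :
    Finset (Fin n × Fin n) := (S ×ˢ S).filter (fun p => G.Adj p.1 p.2)

lemma pairs_bound {k : ℕ} {G : SimpleGraph (Fin n)} (hG : IsKDegenerate k G) (s : ℕ) :
    ∀ S : Finset (Fin n), S.card = k + s → (pairs G S).card + k * (k + 1) ≤ 2 * k * S.card := by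
  classical
  induction s with
  | zero =>
    intro S hS
    have h1 : pairs G S ⊆ S.offDiag := by
      intro p hp
      unfold pairs at hp
      rw [Finset.mem_filter, Finset.mem_product] at hp
      rw [Finset.mem_offDiag]
      exact ⟨hp.1.1, hp.1.2, fun h => G.loopless.irrefl p.2 (h ▸ hp.2)⟩
    have h2 := Finset.card_le_card h1
    rw [Finset.offDiag_card, hS, add_zero] at h2
    have h3 : k ≤ k * k := by nlinarith [Nat.zero_le k, Nat.pos_of_ne_zero (n := k)]
    have h4 : k * k - k + k * (k + 1) = 2 * k * k := by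
      zify [h3]
      ring
    rw [hS, add_zero]
    omega
  | succ s ih =>
    intro S hS
    have hne : (S : Set (Fin n)).Nonempty := by
      rw [Finset.coe_nonempty, ← Finset.card_pos]; omega
    obtain ⟨v, hv, hdeg⟩ := hG (S : Set (Fin n)) hne
    have hvS : v ∈ S := hv
    have hdeg' : (S.filter (fun w => G.Adj v w)).card ≤ k := by
      have : {w ∈ (S : Set (Fin n)) | G.Adj v w} = ((S.filter (fun w => G.Adj v w) :
          Finset (Fin n)) : Set (Fin n)) := by
        ext w; simp
      rw [this, Set.ncard_coe_finset] at hdeg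
      exact hdeg
    have hS' : (S.erase v).card = k + s := by
      rw [Finset.card_erase_of_mem hvS]; omega
    have h1 := ih _ hS'
    have h2 : pairs G S ⊆ pairs G (S.erase v) ∪
        ((S.filter (fun w => G.Adj v w)).image (fun w => (v, w)) ∪
          (S.filter (fun w => G.Adj v w)).image (fun w => (w, v))) := by
      intro p hp
      obtain ⟨u, w⟩ := p
      unfold pairs at hp ⊢
      rw [Finset.mem_filter, Finset.mem_product] at hp
      obtain ⟨⟨hu, hw⟩, hadj⟩ := hp
      simp only at hu hw hadj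
      rw [Finset.mem_union, Finset.mem_union]
      by_cases huv : u = v
      · right; left
        rw [Finset.mem_image]
        exact ⟨w, Finset.mem_filter.2 ⟨hw, huv ▸ hadj⟩, by rw [huv]⟩
      · by_cases hwv : w = v
        · right; right
          rw [Finset.mem_image]
          exact ⟨u, Finset.mem_filter.2 ⟨hu, (hwv ▸ hadj).symm⟩, by rw [hwv]⟩
        · left
          rw [Finset.mem_filter, Finset.mem_product]
          exact ⟨⟨Finset.mem_erase.2 ⟨huv, hu⟩, Finset.mem_erase.2 ⟨hwv, hw⟩⟩, hadj⟩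
    have h3 := Finset.card_le_card h2
    have h4 := Finset.card_union_le (pairs G (S.erase v))
      ((S.filter (fun w => G.Adj v w)).image (fun w => (v, w)) ∪
          (S.filter (fun w => G.Adj v w)).image (fun w => (w, v)))
    have h5 := Finset.card_union_le ((S.filter (fun w => G.Adj v w)).image (fun w => (v, w)))
      ((S.filter (fun w => G.Adj v w)).image (fun w => (w, v)))
    have h6 := Finset.card_image_le (s := S.filter (fun w => G.Adj v w)) (f := fun w => (v, w))
    have h7 := Finset.card_image_le (s := S.filter (fun w => G.Adj v w)) (f := fun w => (w, v))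
    rw [hS'] at h1
    rw [hS]
    have h8 : 2 * k * (k + (s + 1)) = 2 * k * (k + s) + 2 * k := by ring
    rw [h8]
    omega

lemma pairs_univ {k : ℕ} {G : SimpleGraph (Fin n)} (hG : IsKDegenerate k G) (hk : k ≤ n) :
    (pairs G Finset.univ).card + k * (k + 1) ≤ 2 * k * n := by
  have := pairs_bound hG (n - k) Finset.univ (by rw [Finset.card_univ, Fintype.card_fin]; omega)
  rwa [Finset.card_univ, Fintype.card_fin] at this

open Classical in
/-- probability that positions `i, j` are adjacent -/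
noncomputable def cP (G : SimpleGraph (Fin n)) (i j : Fin n) : ℝ :=
  av (fun σ => if G.Adj (σ i) (σ j) then 1 else 0)

lemma cP_eq (G : SimpleGraph (Fin n)) {i j a b : Fin n} (hij : i ≠ j) (hab : a ≠ b) :
    cP G i j = cP G a b := by
  classical
  let π : Perm (Fin n) := swap (swap a i b) j * swap a i
  have h1 : i ≠ swap a i b := by
    intro h
    have := congrArg (swap a i) h
    rw [swap_apply_self, swap_apply_right] at this
    exact hab this
  have ha : π a = i := by
    simp only [π, Perm.mul_apply, swap_apply_left]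
    exact swap_apply_of_ne_of_ne h1 hij
  have hb : π b = j := by
    simp only [π, Perm.mul_apply, swap_apply_left]
  unfold cP
  rw [← av_right π (fun σ => if G.Adj (σ a) (σ b) then 1 else 0)]
  congr 1
  funext σ
  have e1 : (σ * π) a = σ i := by rw [← ha]; rfl
  have e2 : (σ * π) b = σ j := by rw [← hb]; rfl
  rw [e1, e2]

lemma cP_nonneg (G : SimpleGraph (Fin n)) (i j : Fin n) : 0 ≤ cP G i j := by
  classical
  unfold cP
  apply av_nonneg
  intro σ
  split_ifs <;> norm_num

lemma cP_le {k : ℕ} {G : SimpleGraph (Fin n)} (hG : IsKDegenerate k G) (hk : k ≤ n)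
    {a b : Fin n} (hab : a ≠ b) : cP G a b * ((n : ℝ) - 1) ≤ 2 * k := by
  classical
  have hn : (0 : ℝ) < n := n_pos a
  have h1 : av (fun σ : Perm (Fin n) => ∑ p : Fin n × Fin n,
      if G.Adj (σ p.1) (σ p.2) then (1 : ℝ) else 0) = ((pairs G Finset.univ).card : ℝ) := by
    have h2 : ∀ σ : Perm (Fin n), (∑ p : Fin n × Fin n,
        if G.Adj (σ p.1) (σ p.2) then (1 : ℝ) else 0) = ((pairs G Finset.univ).card : ℝ) := by
      intro σ
      have h3 := Equiv.sum_comp (Equiv.prodCongr σ σ)
        (fun p : Fin n × Fin n => if G.Adj p.1 p.2 then (1 : ℝ) else 0)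
      have h4 : ∑ p : Fin n × Fin n, (if G.Adj p.1 p.2 then (1 : ℝ) else 0) =
          ((pairs G Finset.univ).card : ℝ) := by
        rw [← Finset.sum_filter, Finset.sum_const, nsmul_eq_mul, mul_one]
        unfold pairs
        rw [Finset.univ_product_univ]
      rw [← h4, ← h3]
      rfl
    simp_rw [h2]
    exact av_const _
  have h5 : ∑ p ∈ Finset.univ.filter (fun p : Fin n × Fin n => p.1 ≠ p.2), cP G p.1 p.2 ≤
      ((pairs G Finset.univ).card : ℝ) := by
    rw [← h1, av_sum]
    apply Finset.sum_le_sum_of_subset_of_nonneg (Finset.filter_subset _ _)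
    intro p _ _
    exact cP_nonneg G p.1 p.2
  rw [Finset.sum_congr rfl (fun p hp => cP_eq G (Finset.mem_filter.1 hp).2 hab),
    Finset.sum_const, nsmul_eq_mul] at h5
  have h6 : ((Finset.univ.filter (fun p : Fin n × Fin n => p.1 ≠ p.2)).card : ℝ) =
      n * ((n : ℝ) - 1) := by
    have h7 : Finset.univ.filter (fun p : Fin n × Fin n => p.1 ≠ p.2) =
        (Finset.univ : Finset (Fin n)).offDiag := by
      ext p; simp [Finset.mem_offDiag]
    rw [h7, Finset.offDiag_card, Finset.card_univ, Fintype.card_fin]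
    have : n ≤ n * n := Nat.le_mul_self n
    rw [Nat.cast_sub this]
    push_cast
    ring
  rw [h6] at h5
  have h8 : ((pairs G Finset.univ).card : ℝ) ≤ 2 * k * n := by
    have := pairs_univ hG hk
    have h9 : (pairs G Finset.univ).card ≤ 2 * k * n := by omega
    exact_mod_cast h9
  have h10 : (n : ℝ) * (cP G a b * ((n : ℝ) - 1)) ≤ n * (2 * k) := by nlinarith
  exact le_of_mul_le_mul_left h10 hn

open Classical in
lemma Z_ge (G : SimpleGraph (Fin n)) (σ : Perm (Fin n)) {t : ℕ} (ht : t ≤ n) :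
    (t : ℝ) ≤ (Z G (active σ t) : ℝ) + ∑ p ∈ Finset.univ.filter (fun p : Fin n × Fin n =>
      p.1 < p.2 ∧ (p.2 : ℕ) < t), (if G.Adj (σ p.1) (σ p.2) then (1 : ℝ) else 0) := by
  have h1 := card_le_comp_add_edges (G.induce (active σ t))
  have h2 : Nat.card (active σ t) = t := by
    have := card_active σ ht
    rw [Nat.card_eq_fintype_card, Fintype.card_subtype]
    exact this
  rw [h2] at h1
  set Q := (Finset.univ.filter (fun p : Fin n × Fin n =>
      p.1 < p.2 ∧ (p.2 : ℕ) < t)).filter (fun p => G.Adj (σ p.1) (σ p.2)) with hQ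
  have hact : ∀ i : Fin n, (i : ℕ) < t → σ i ∈ active σ t := fun i hi => ⟨i, hi, rfl⟩
  have h3 : Nat.card (G.induce (active σ t)).edgeSet ≤ Q.card := by
    have hmem : ∀ p : Q, ((p.1.1 : ℕ) < t ∧ (p.1.2 : ℕ) < t) ∧ G.Adj (σ p.1.1) (σ p.1.2) := by
      rintro ⟨p, h⟩
      rw [hQ, Finset.mem_filter, Finset.mem_filter] at h
      change ((p.1 : ℕ) < t ∧ (p.2 : ℕ) < t) ∧ G.Adj (σ p.1) (σ p.2)
      have h' : (p.1 : ℕ) < (p.2 : ℕ) := h.1.2.1
      exact ⟨⟨by omega, h.1.2.2⟩, h.2⟩
    let f : Q → (G.induce (active σ t)).edgeSet := fun p =>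
      ⟨s(⟨σ p.1.1, hact _ (hmem p).1.1⟩, ⟨σ p.1.2, hact _ (hmem p).1.2⟩), (hmem p).2⟩
    have hf : Function.Surjective f := by
      rintro ⟨e, he⟩
      induction e using Sym2.ind with
      | _ x y =>
        obtain ⟨x, i, hi, rfl⟩ := x
        obtain ⟨y, j, hj, rfl⟩ := y
        have hadj : G.Adj (σ i) (σ j) := he
        have hne : i ≠ j := by
          rintro rfl
          exact G.loopless.irrefl _ hadj
        rcases lt_or_gt_of_ne hne with h | h
        · refine ⟨⟨(i, j), ?_⟩, rfl⟩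
          rw [hQ, Finset.mem_filter, Finset.mem_filter]
          exact ⟨⟨Finset.mem_univ _, h, hj⟩, hadj⟩
        · refine ⟨⟨(j, i), ?_⟩, ?_⟩
          · rw [hQ, Finset.mem_filter, Finset.mem_filter]
            exact ⟨⟨Finset.mem_univ _, h, hi⟩, hadj.symm⟩
          · apply Subtype.ext
            exact Sym2.eq_swap
    have h4 := Nat.card_le_card_of_surjective f hf
    simpa using h4
  have h5 : t ≤ Z G (active σ t) + Q.card := by
    unfold Z
    omega
  have h6 : ∑ p ∈ Finset.univ.filter (fun p : Fin n × Fin n =>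
      p.1 < p.2 ∧ (p.2 : ℕ) < t), (if G.Adj (σ p.1) (σ p.2) then (1 : ℝ) else 0) =
      (Q.card : ℝ) := by
    rw [← Finset.sum_filter, Finset.sum_const, nsmul_eq_mul, mul_one]
  rw [h6]
  exact_mod_cast h5

lemma card_lt_pairs {t : ℕ} (ht : t ≤ n) :
    2 * (Finset.univ.filter (fun p : Fin n × Fin n => p.1 < p.2 ∧ (p.2 : ℕ) < t)).card + t =
      t * t := by
  classical
  set U := Finset.univ.filter (fun i : Fin n => (i : ℕ) < t) with hU
  have hUc : U.card = t := by
    rw [hU, Fin.card_filter_val_lt]; exact min_eq_right ht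
  have h1 : U.offDiag.card = t * t - t := by rw [Finset.offDiag_card, hUc]
  set P1 := Finset.univ.filter (fun p : Fin n × Fin n => p.1 < p.2 ∧ (p.2 : ℕ) < t) with hP1
  have h2 : U.offDiag = P1 ∪ P1.image Prod.swap := by
    ext ⟨i, j⟩
    simp only [hP1, hU, Finset.mem_offDiag, Finset.mem_union, Finset.mem_image,
      Finset.mem_filter, Finset.mem_univ, true_and, Prod.exists, Prod.swap_prod_mk,
      Prod.mk.injEq]
    constructor
    · rintro ⟨h1, h2, h3⟩
      rcases lt_or_gt_of_ne h3 with h | h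
      · exact Or.inl ⟨h, h2⟩
      · exact Or.inr ⟨j, i, ⟨h, h1⟩, rfl, rfl⟩
    · rintro (⟨h1, h2⟩ | ⟨a, b, ⟨h1, h2⟩, rfl, rfl⟩)
      · have : (i : ℕ) < (j : ℕ) := h1
        exact ⟨by omega, h2, ne_of_lt h1⟩
      · have : (a : ℕ) < (b : ℕ) := h1
        exact ⟨h2, by omega, ne_of_gt h1⟩
  have h3 : Disjoint P1 (P1.image Prod.swap) := by
    rw [Finset.disjoint_left]
    rintro ⟨i, j⟩ h h'
    simp only [hP1, Finset.mem_image, Finset.mem_filter, Finset.mem_univ, true_and,
      Prod.exists, Prod.swap_prod_mk, Prod.mk.injEq] at h h'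
    obtain ⟨a, b, ⟨h4, _⟩, rfl, rfl⟩ := h'
    exact absurd h.1 (not_lt_of_gt h4)
  have h4 : (P1.image Prod.swap).card = P1.card :=
    Finset.card_image_of_injective _ Prod.swap_injective
  have h5 := Finset.card_union_of_disjoint h3
  rw [← h2, h1, h4] at h5
  have h6 : t ≤ t * t := Nat.le_mul_self t
  omega

theorem aZ_ge {k : ℕ} {G : SimpleGraph (Fin n)} (hG : IsKDegenerate k G) (hk : k ≤ n)
    (hn : 2 ≤ n) {t : ℕ} (ht : t ≤ n) :
    (t : ℝ) - k * t * (t - 1) / (n - 1) ≤ aZ G t := by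
  classical
  have h1 := av_mono (F := fun _ => (t : ℝ)) (F' := fun σ : Perm (Fin n) =>
    (Z G (active σ t) : ℝ) + ∑ p ∈ Finset.univ.filter (fun p : Fin n × Fin n =>
      p.1 < p.2 ∧ (p.2 : ℕ) < t), (if G.Adj (σ p.1) (σ p.2) then (1 : ℝ) else 0))
    (fun σ => Z_ge G σ ht)
  rw [av_const, av_add (fun σ : Perm (Fin n) => (Z G (active σ t) : ℝ)), av_sum] at h1
  have hn1 : (0 : ℝ) < (n : ℝ) - 1 := by
    have : (2 : ℝ) ≤ n := by exact_mod_cast hn
    linarith
  have h2 : ∑ p ∈ Finset.univ.filter (fun p : Fin n × Fin n =>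
      p.1 < p.2 ∧ (p.2 : ℕ) < t), av (fun σ => (if G.Adj (σ p.1) (σ p.2) then (1 : ℝ) else 0)) ≤
      ((Finset.univ.filter (fun p : Fin n × Fin n => p.1 < p.2 ∧ (p.2 : ℕ) < t)).card : ℝ) *
        (2 * k / ((n : ℝ) - 1)) := by
    rw [← nsmul_eq_mul]
    apply Finset.sum_le_card_nsmul
    intro p hp
    have h3 := cP_le hG hk (ne_of_lt (Finset.mem_filter.1 hp).2.1)
    rw [le_div_iff₀ hn1]
    exact h3
  have h4 : (2 : ℝ) * ((Finset.univ.filter (fun p : Fin n × Fin n =>
      p.1 < p.2 ∧ (p.2 : ℕ) < t)).card : ℝ) + t = t * t := by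
    exact_mod_cast card_lt_pairs ht
  have h5 : ((Finset.univ.filter (fun p : Fin n × Fin n => p.1 < p.2 ∧ (p.2 : ℕ) < t)).card : ℝ) *
        (2 * k / ((n : ℝ) - 1)) = k * t * (t - 1) / (n - 1) := by
    have h6 : ((Finset.univ.filter (fun p : Fin n × Fin n =>
      p.1 < p.2 ∧ (p.2 : ℕ) < t)).card : ℝ) = (t * t - t) / 2 := by linarith
    rw [h6]
    field_simp
  rw [h5] at h2
  unfold aZ
  linarith

lemma Z_le (G : SimpleGraph (Fin n)) (S : Set (Fin n)) : Z G S ≤ n := by
  classical
  unfold Z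
  have h1 : Nat.card (G.induce S).ConnectedComponent ≤ Nat.card S :=
    Nat.card_le_card_of_surjective (fun x => (G.induce S).connectedComponentMk x)
      (fun c => by
        induction c using SimpleGraph.ConnectedComponent.ind with
        | _ x => exact ⟨x, rfl⟩)
  have h2 : Nat.card S ≤ Nat.card (Fin n) :=
    Nat.card_le_card_of_injective Subtype.val Subtype.val_injective
  rw [Nat.card_fin] at h2
  omega

lemma m_bdd (G : SimpleGraph (Fin n)) :
    BddAbove {x : ℝ | ∃ A : Equiv.Perm (Fin n) → ℕ, IsStopping A ∧ x = value G A} := by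
  refine ⟨n, ?_⟩
  rintro x ⟨A, _, rfl⟩
  have h1 : value G A = av (fun σ => (Z G (active σ (A σ)) : ℝ)) := rfl
  rw [h1]
  have h2 := av_mono (F := fun σ => (Z G (active σ (A σ)) : ℝ)) (F' := fun _ => (n : ℝ))
    (fun σ => by exact_mod_cast Z_le G _)
  rwa [av_const] at h2

lemma m_ge (G : SimpleGraph (Fin n)) {t : ℕ} (ht1 : 1 ≤ t) (ht : t ≤ n) : aZ G t ≤ m G := by
  unfold m
  apply le_csSup (m_bdd G)
  exact ⟨fun _ => t, ⟨fun σ => ⟨ht1, ht⟩, fun _ _ _ => rfl⟩, rfl⟩

/-- the lower bound for `k`-degenerate graphs -/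
theorem m_lower {k : ℕ} (hk : 1 ≤ k) {G : SimpleGraph (Fin n)} (hG : IsKDegenerate k G)
    (hn : 2 * k ≤ n) : (n : ℝ) / (4 * k) - k / n ≤ m G := by
  set t := n / (2 * k) with ht
  have h2k : 0 < 2 * k := by omega
  have ht1 : 1 ≤ t := (Nat.one_le_div_iff h2k).2 hn
  have htn : t ≤ n := Nat.div_le_self _ _
  refine le_trans ?_ (m_ge G ht1 htn)
  refine le_trans ?_ (aZ_ge hG (by omega) (by omega) htn)
  have hkr : (1 : ℝ) ≤ k := by exact_mod_cast hk
  have hnr : (2 : ℝ) * k ≤ n := by exact_mod_cast hn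
  have hn0 : (0 : ℝ) < n := by linarith
  have hn1 : (0 : ℝ) < (n : ℝ) - 1 := by linarith
  have htr1 : (1 : ℝ) ≤ t := by exact_mod_cast ht1
  have hA : (t : ℝ) * (2 * k) ≤ n := by
    have := Nat.div_mul_le_self n (2 * k)
    rw [← ht] at this
    exact_mod_cast this
  have hB : (n : ℝ) ≤ (t + 1) * (2 * k) := by
    have := (Nat.lt_mul_div_succ n h2k).le
    rw [← ht] at this
    have h' : n ≤ (t + 1) * (2 * k) := by linarith
    exact_mod_cast h'
  -- replace `(t-1)/(n-1)` by `t/n`
  have h1 : (k : ℝ) * t * (t - 1) / (n - 1) ≤ k * t * t / n := by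
    rw [div_le_div_iff₀ hn1 hn0]
    have htn' : (t : ℝ) ≤ n := by exact_mod_cast htn
    have : (0 : ℝ) ≤ k * t * (n - t) := by
      apply mul_nonneg (by positivity)
      linarith
    nlinarith
  refine le_trans ?_ (sub_le_sub_left h1 _)
  have h2 : (n : ℝ) / (4 * k) - k / n = (n ^ 2 - 4 * k ^ 2) / (4 * k * n) := by
    field_simp
  have h3 : (t : ℝ) - k * t * t / n = (4 * k * t * n - 4 * k ^ 2 * t * t) / (4 * k * n) := by
    field_simp
  rw [h2, h3]
  apply div_le_div_of_nonneg_right _ (by positivity)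
  nlinarith

end

end Pool.Agent.K4H82.DG
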