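import Mathlib
import Pool.Agent.K4H82.DG.Lower

set_option autoImplicit false

namespace Pool.Agent.K4H82.DG

open Equiv

section words

variable {A : Type} [DecidableEq A]

/-- reduced words of length at most `R` -/
def RW (A : Type) (R : ℕ) : Type := {w : List A // w.IsChain (· ≠ ·) ∧ w.length ≤ R}

instance (R : ℕ) [Finite A] : Finite (RW A R) := by
  have h := List.finite_length_le A R
  have : Finite {l : List A | l.length ≤ R} := h
  exact Finite.of_injective (fun w : RW A R => (⟨w.1, w.2.2⟩ : {l : List A | l.length ≤ R}))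
    (fun a b hab => Subtype.ext (by simpa using hab))

/-- the action of a letter on words -/
def Tw (R : ℕ) (a : A) (w : List A) : List A :=
  if w.head? = some a then w.tail else if w.length < R then a :: w else w

lemma Tw_mem (R : ℕ) (a : A) (w : List A) (h : w.IsChain (· ≠ ·) ∧ w.length ≤ R) :
    (Tw R a w).IsChain (· ≠ ·) ∧ (Tw R a w).length ≤ R := by
  unfold Tw
  split_ifs with h1 h2
  · exact ⟨h.1.tail, by rw [List.length_tail]; omega⟩
  · refine ⟨List.isChain_cons.2 ⟨?_, h.1⟩, by rw [List.length_cons]; omega⟩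
    intro y hy hay
    apply h1
    rw [hay]
    exact hy
  · exact h

lemma Tw_inv (R : ℕ) (a : A) (w : List A) (h : w.IsChain (· ≠ ·) ∧ w.length ≤ R) :
    Tw R a (Tw R a w) = w := by
  by_cases h1 : w.head? = some a
  · cases w with
    | nil => simp at h1
    | cons b w =>
      simp only [List.head?_cons, Option.some.injEq] at h1
      subst h1
      have h2 : Tw R b (b :: w) = w := by
        unfold Tw
        simp
      rw [h2]
      unfold Tw
      have h3 := List.isChain_cons.1 h.1
      have h4 : w.head? ≠ some b := fun h' => h3.1 b h' rfl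
      rw [if_neg h4, if_pos]
      have := h.2
      rw [List.length_cons] at this
      omega
  · by_cases h2 : w.length < R
    · have h3 : Tw R a w = a :: w := by
        unfold Tw
        rw [if_neg h1, if_pos h2]
      rw [h3]
      unfold Tw
      simp
    · have h3 : Tw R a w = w := by
        unfold Tw
        rw [if_neg h1, if_neg h2]
      rw [h3, h3]

/-- the letter as a permutation of the reduced words -/
def PL (R : ℕ) (a : A) : Perm (RW A R) :=
  Function.Involutive.toPerm (fun w => ⟨Tw R a w.1, Tw_mem R a w.1 w.2⟩)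
    (fun w => Subtype.ext (Tw_inv R a w.1 w.2))

lemma PL_apply (R : ℕ) (a : A) (w : RW A R) : (PL R a w).1 = Tw R a w.1 := rfl

lemma PL_sq (R : ℕ) (a : A) : PL R a * PL R a = 1 := by
  ext w
  rw [Perm.mul_apply, Perm.one_apply]
  apply Subtype.ext
  exact Tw_inv R a w.1 w.2

lemma PL_PL (R : ℕ) (a : A) (g : Perm (RW A R)) : PL R a * (PL R a * g) = g := by
  rw [← mul_assoc, PL_sq, one_mul]

/-- the empty word -/
def e0 (A : Type) (R : ℕ) : RW A R := ⟨[], List.IsChain.nil, Nat.zero_le _⟩

lemma PL_e0 {R : ℕ} (hR : 1 ≤ R) (a : A) : (PL R a (e0 A R)).1 = [a] := by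
  rw [PL_apply]
  unfold Tw e0
  rw [if_neg (by simp), if_pos (by simpa using (by omega : 0 < R))]

end words

section graph

variable (k R N : ℕ)

/-- letters -/
abbrev Let (k : ℕ) : Type := Fin k × Bool

/-- the group -/
abbrev Gam : Type := Perm (RW (Let k) R)

/-- parity -/
def par (i : ℕ) : Bool := decide (i % 2 = 1)

lemma par_succ (i : ℕ) : par (i + 1) = !par i := by
  unfold par
  rcases Nat.mod_two_eq_zero_or_one i with h | h
  · rw [Nat.add_mod, h]; simp
  · rw [Nat.add_mod, h]; simp

variable {k R N}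

/-- the involutions -/
def stp (a : Let k) (x : Fin N × Gam k R) : Fin N × Gam k R :=
  if a.2 = par x.1 then (⟨x.1 - 1, lt_of_le_of_lt (Nat.sub_le _ _) x.1.2⟩, PL R a * x.2)
  else if h : (x.1 : ℕ) + 1 < N then (⟨x.1 + 1, h⟩, PL R a * x.2) else (x.1, PL R a * x.2)

lemma stp_snd (a : Let k) (x : Fin N × Gam k R) : (stp a x).2 = PL R a * x.2 := by
  unfold stp
  split_ifs <;> rfl

lemma stp_val_down (a : Let k) (x : Fin N × Gam k R) (h : a.2 = par x.1) :
    ((stp a x).1 : ℕ) = x.1 - 1 := by
  unfold stp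
  rw [if_pos h]

lemma stp_val_up (a : Let k) (x : Fin N × Gam k R) (h : a.2 ≠ par x.1)
    (h' : (x.1 : ℕ) + 1 < N) : ((stp a x).1 : ℕ) = x.1 + 1 := by
  unfold stp
  rw [if_neg h, dif_pos h']

lemma stp_val_stay (a : Let k) (x : Fin N × Gam k R) (h : a.2 ≠ par x.1)
    (h' : ¬ (x.1 : ℕ) + 1 < N) : ((stp a x).1 : ℕ) = x.1 := by
  unfold stp
  rw [if_neg h, dif_neg h']

lemma stp_inv (a : Let k) (x : Fin N × Gam k R) : stp a (stp a x) = x := by
  have hsnd : (stp a (stp a x)).2 = x.2 := by
    rw [stp_snd, stp_snd, PL_PL]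
  refine Prod.ext ?_ hsnd
  apply Fin.ext
  by_cases h1 : a.2 = par x.1
  · have e1 := stp_val_down a x h1
    by_cases h0 : (x.1 : ℕ) = 0
    · have e2 := stp_val_down a (stp a x) (by rw [e1, h1, h0])
      rw [e2, e1]; omega
    · have hp : ¬ a.2 = par ((stp a x).1 : ℕ) := by
        rw [e1, h1]
        obtain ⟨j, hj⟩ := Nat.exists_eq_succ_of_ne_zero h0
        rw [hj, Nat.succ_eq_add_one, Nat.add_sub_cancel, par_succ]
        cases par j <;> simp
      have hlt : ((stp a x).1 : ℕ) + 1 < N := by
        rw [e1]; have := x.1.2; omega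
      have e2 := stp_val_up a (stp a x) hp hlt
      rw [e2, e1]; omega
  · by_cases hlt : (x.1 : ℕ) + 1 < N
    · have e1 := stp_val_up a x h1 hlt
      have hp : a.2 = par ((stp a x).1 : ℕ) := by
        rw [e1, par_succ]
        revert h1
        cases a.2 <;> cases par (x.1 : ℕ) <;> simp
      have e2 := stp_val_down a (stp a x) hp
      rw [e2, e1]; omega
    · have e1 := stp_val_stay a x h1 hlt
      have e2 := stp_val_stay a (stp a x) (by rw [e1]; exact h1) (by rw [e1]; exact hlt)
      rw [e2, e1]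

lemma stp_lev (a : Let k) (x : Fin N × Gam k R) :
    ((stp a x).1 : ℕ) ≤ x.1 + 1 ∧ (x.1 : ℕ) ≤ (stp a x).1 + 1 := by
  unfold stp
  split_ifs
  · simp only; omega
  · simp only; omega
  · simp only; omega

/-- number of elements of the group -/
noncomputable def mG (k R : ℕ) : ℕ := Nat.card (Gam k R)

/-- enumeration of the group -/
noncomputable def idx (k R : ℕ) : Gam k R ≃ Fin (mG k R) := Finite.equivFin _

/-- enumeration of the vertices, by levels -/
noncomputable def EE (k R N : ℕ) : Fin N × Gam k R ≃ Fin (N * mG k R) :=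
  (Equiv.prodCongr (Equiv.refl _) (idx k R)).trans finProdFinEquiv

lemma EE_val (x : Fin N × Gam k R) :
    ((EE k R N x : Fin (N * mG k R)) : ℕ) = idx k R x.2 + mG k R * x.1 := by
  unfold EE
  rw [Equiv.trans_apply, finProdFinEquiv_apply_val]
  rfl

/-- the involutions on the vertices -/
noncomputable def step (a : Let k) (x : Fin (N * mG k R)) : Fin (N * mG k R) :=
  EE k R N (stp a ((EE k R N).symm x))

lemma step_inv (a : Let k) (x : Fin (N * mG k R)) : step a (step a x) = x := by
  unfold step
  rw [Equiv.symm_apply_apply, stp_inv, Equiv.apply_symm_apply]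

/-- the group component -/
noncomputable def gr (x : Fin (N * mG k R)) : Gam k R := ((EE k R N).symm x).2

/-- the level -/
noncomputable def lev (x : Fin (N * mG k R)) : ℕ := (((EE k R N).symm x).1 : ℕ)

lemma gr_step (a : Let k) (x : Fin (N * mG k R)) : gr (step a x) = PL R a * gr x := by
  unfold gr step
  rw [Equiv.symm_apply_apply, stp_snd]

lemma lev_step (a : Let k) (x : Fin (N * mG k R)) :
    lev (step a x) ≤ lev x + 1 ∧ lev x ≤ lev (step a x) + 1 := by
  unfold lev step
  rw [Equiv.symm_apply_apply]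
  exact stp_lev a _

lemma step_free : Free (step (k := k) (R := R) (N := N)) R := by
  have key : ∀ (d : ℕ) (x : Fin (N * mG k R)) (a : Let k) (z : Fin (N * mG k R)) (c : Let k),
      Pth step d x a z c → d ≤ R → ∃ h : Gam k R, gr z = h * gr x ∧
        (h (e0 _ R)).1.length = d ∧ (d = 0 ∨ (h (e0 _ R)).1.head? = some c) := by
    intro d x a z c hp
    induction hp with
    | refl x a => intro _; exact ⟨1, by rw [one_mul], rfl, Or.inl rfl⟩
    | snoc b h hb ih =>
      rename_i d' x' a' z' c'
      intro hd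
      obtain ⟨h, h1, h2, h3⟩ := ih (by omega)
      have hhead : (h (e0 _ R)).1.head? ≠ some b := by
        rcases h3 with h3 | h3
        · rw [h3] at h2
          rw [List.length_eq_zero_iff.1 h2]
          simp
        · rw [h3]
          intro h4
          exact hb (Option.some.inj h4).symm
      have hval : ((PL R b * h) (e0 _ R)).1 = b :: (h (e0 _ R)).1 := by
        rw [Perm.mul_apply, PL_apply]
        unfold Tw
        rw [if_neg hhead, if_pos (by omega)]
      refine ⟨PL R b * h, ?_, ?_, Or.inr ?_⟩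
      · rw [gr_step, h1, mul_assoc]
      · rw [hval, List.length_cons, h2]
      · rw [hval]; rfl
  intro d x a z c h1 h2 h3 h4
  obtain ⟨h, h5, h6, _⟩ := key d x a z c h3 h2
  rw [h4] at h5
  have h7 : h = 1 := by
    have := mul_right_cancel (b := gr x) (a := 1) (c := h) (by rw [one_mul]; exact h5)
    exact this.symm
  rw [h7] at h6
  have h8 : ((1 : Gam k R) (e0 _ R)).1.length = 0 := rfl
  omega

/-- adjacency -/
def adj (x y : Fin (N * mG k R)) : Prop :=
  (lev x = lev y + 1 ∧ ∃ j : Fin k, gr y = PL R (j, par (lev x)) * gr x) ∨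
  (lev y = lev x + 1 ∧ ∃ j : Fin k, gr x = PL R (j, par (lev y)) * gr y) ∨
  (lev x = 0 ∧ lev y = 0 ∧ gr x ≠ gr y ∧
    ((idx k R (gr x) : ℕ) < k ∨ (idx k R (gr y) : ℕ) < k))

/-- the graph -/
def GG (k R N : ℕ) : SimpleGraph (Fin (N * mG k R)) where
  Adj := adj
  symm := ⟨by
    intro x y h
    rcases h with h | h | ⟨h1, h2, h3, h4⟩
    · exact Or.inr (Or.inl h)
    · exact Or.inl h
    · exact Or.inr (Or.inr ⟨h2, h1, h3.symm, h4.symm⟩)⟩
  loopless := ⟨by
    intro x h
    rcases h with h | h | ⟨h1, h2, h3, h4⟩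
    · omega
    · omega
    · exact h3 rfl⟩

lemma ext_lg {x y : Fin (N * mG k R)} (h1 : lev x = lev y) (h2 : gr x = gr y) : x = y := by
  apply (EE k R N).symm.injective
  exact Prod.ext (Fin.ext h1) h2

lemma lev_lt (x : Fin (N * mG k R)) : lev x < N := ((EE k R N).symm x).1.2

lemma step_down (a : Let k) (x : Fin (N * mG k R)) (h : a.2 = par (lev x)) :
    lev (step a x) = lev x - 1 := by
  unfold lev step
  rw [Equiv.symm_apply_apply]
  exact stp_val_down a _ h

lemma step_up (a : Let k) (x : Fin (N * mG k R)) (h : a.2 ≠ par (lev x)) (h' : lev x + 1 < N) :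
    lev (step a x) = lev x + 1 := by
  unfold lev step
  rw [Equiv.symm_apply_apply]
  exact stp_val_up a _ h h'

lemma adj_step {x : Fin (N * mG k R)} (h1 : 1 ≤ lev x) (h2 : lev x + 1 < N) (a : Let k) :
    (GG k R N).Adj x (step a x) := by
  by_cases h : a.2 = par (lev x)
  · left
    refine ⟨by rw [step_down a x h]; omega, a.1, ?_⟩
    rw [gr_step, ← h]
  · right; left
    have h3 := step_up a x h h2
    refine ⟨h3, a.1, ?_⟩
    have h4 : a.2 = par (lev (step a x)) := by
      rw [h3, par_succ]
      revert h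
      cases a.2 <;> cases par (lev x) <;> simp
    rw [← h4, gr_step, PL_PL]

lemma adj_imp {x z : Fin (N * mG k R)} (h1 : 1 ≤ lev x) (h2 : lev x + 1 < N)
    (h : (GG k R N).Adj x z) : ∃ b, z = step b x := by
  rcases h with ⟨h3, j, h4⟩ | ⟨h3, j, h4⟩ | ⟨h3, _⟩
  · refine ⟨(j, par (lev x)), ext_lg ?_ ?_⟩
    · rw [step_down _ _ rfl]; omega
    · rw [gr_step, h4]
  · refine ⟨(j, par (lev z)), ext_lg ?_ ?_⟩
    · rw [step_up _ _ _ h2, h3]
      simp only
      rw [h3, par_succ]
      cases par (lev x) <;> simp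
    · rw [gr_step, h4, PL_PL]
  · omega

lemma pth_lev {d : ℕ} {x : Fin (N * mG k R)} {a : Let k} {z : Fin (N * mG k R)} {c : Let k}
    (h : Pth step d x a z c) : lev z ≤ lev x + d ∧ lev x ≤ lev z + d := by
  induction h with
  | refl => omega
  | snoc b h hb ih =>
    rename_i d' x' a' z' c'
    have := lev_step b z'
    omega

lemma bulk (r : ℕ) (v : Fin (N * mG k R)) (h1 : r + 2 < lev v) (h2 : lev v + r + 2 < N) :
    Bulk step (GG k R N) r v := by
  refine ⟨fun a => adj_step (by omega) (by omega) a, ?_⟩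
  intro a d z c hd hp z' hz
  have h3 := pth_lev hp
  have h4 := lev_step a v
  exact adj_imp (by omega) (by omega) hz

end graph

end Pool.Agent.K4H82.DG
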