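import Mathlib
import Pool.Agent.K4H82.DG.Construct

set_option autoImplicit false

namespace Pool.Agent.K4H82.DG

open Equiv

section gen

variable {n : ℕ}

open Classical in
/-- the earlier neighbours -/
noncomputable def back (G : SimpleGraph (Fin n)) (x : Fin n) : Finset (Fin n) :=
  Finset.univ.filter (fun y => y < x ∧ G.Adj x y)

lemma pairs_eq (G : SimpleGraph (Fin n)) :
    (pairs G Finset.univ).card = 2 * ∑ x, (back G x).card := by
  classical
  have h1 : (pairs G Finset.univ).card = ∑ x : Fin n, ∑ y : Fin n,
      (if G.Adj x y then 1 else 0) := by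
    unfold pairs
    rw [Finset.univ_product_univ, Finset.card_filter, Fintype.sum_prod_type]
  have h2 : ∀ x y : Fin n, (if G.Adj x y then 1 else 0) =
      (if y < x ∧ G.Adj x y then 1 else 0) + (if x < y ∧ G.Adj y x then 1 else 0) := by
    intro x y
    rcases lt_trichotomy x y with h | h | h
    · have h' : ¬ y < x := not_lt_of_gt h
      by_cases hadj : G.Adj x y
      · simp [hadj, h, h', hadj.symm]
      · have : ¬ G.Adj y x := fun h3 => hadj h3.symm
        simp [hadj, this]
    · subst h
      simp
    · have h' : ¬ x < y := not_lt_of_gt h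
      simp [h, h']
  rw [h1]
  simp_rw [h2, Finset.sum_add_distrib]
  have h3 : ∑ x : Fin n, ∑ y : Fin n, (if x < y ∧ G.Adj y x then 1 else 0) =
      ∑ y : Fin n, ∑ x : Fin n, (if x < y ∧ G.Adj y x then 1 else 0) := Finset.sum_comm
  rw [h3]
  have h4 : ∀ x : Fin n, (back G x).card = ∑ y : Fin n, (if y < x ∧ G.Adj x y then 1 else 0) := by
    intro x
    unfold back
    rw [Finset.card_filter]
  simp_rw [h4]
  ring

lemma sum_min (k j : ℕ) :
    2 * ∑ x ∈ Finset.range (k + j), min x k + k * (k + 1) = 2 * k * (k + j) := by
  induction j with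
  | zero =>
    rw [add_zero]
    have h1 : ∑ x ∈ Finset.range k, min x k = ∑ x ∈ Finset.range k, x :=
      Finset.sum_congr rfl (fun x hx => min_eq_left (Finset.mem_range.1 hx).le)
    rw [h1]
    have h2 := Finset.sum_range_id_mul_two k
    rcases Nat.eq_zero_or_pos k with h | h
    · subst h; simp
    · obtain ⟨m, rfl⟩ := Nat.exists_eq_add_of_le' h
      rw [Nat.add_sub_cancel] at h2
      nlinarith
  | succ j ih =>
    rw [← add_assoc, Finset.sum_range_succ, min_eq_right (by omega : k ≤ k + j)]
    nlinarith

theorem isMax_of_back' {k : ℕ} {G : SimpleGraph (Fin n)} (hk : k ≤ n)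
    (h : ∀ x, (back G x).card = min (x : ℕ) k) :
    IsKDegenerate k G ∧ ∀ H : SimpleGraph (Fin n), G < H → ¬ IsKDegenerate k H := by
  classical
  have hpairs : (pairs G Finset.univ).card + k * (k + 1) = 2 * k * n := by
    rw [pairs_eq]
    simp_rw [h]
    rw [Fin.sum_univ_eq_sum_range (fun x => min x k) n]
    obtain ⟨j, rfl⟩ := Nat.exists_eq_add_of_le hk
    exact sum_min k j
  refine ⟨?_, ?_⟩
  · intro S hS
    obtain ⟨v, hv, hmax⟩ := Set.exists_max_image S id (Set.toFinite S) hS
    refine ⟨v, hv, ?_⟩
    have h1 : {w ∈ S | G.Adj v w} ⊆ ((back G v : Finset (Fin n)) : Set (Fin n)) := by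
      rintro w ⟨hw, hadj⟩
      unfold back
      rw [Finset.coe_filter]
      refine ⟨Finset.mem_univ _, lt_of_le_of_ne (hmax w hw) ?_, hadj⟩
      rintro rfl
      exact G.loopless.irrefl _ hadj
    have h2 := Set.ncard_le_ncard h1 (Set.toFinite _)
    rw [Set.ncard_coe_finset, h v] at h2
    exact h2.trans (min_le_right _ _)
  · intro H hGH hH
    have h1 := pairs_univ hH hk
    have h2 : pairs G Finset.univ ⊂ pairs H Finset.univ := by
      rw [Finset.ssubset_iff_of_subset]
      · obtain ⟨hle, hne⟩ := hGH
        have : ∃ x y, H.Adj x y ∧ ¬ G.Adj x y := by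
          by_contra hcon
          push Not at hcon
          exact hne (fun x y hxy => hcon x y hxy)
        obtain ⟨x, y, h3, h4⟩ := this
        refine ⟨(x, y), ?_, ?_⟩
        · unfold pairs; simp [h3]
        · unfold pairs; simp [h4]
      · intro p hp
        unfold pairs at hp ⊢
        rw [Finset.mem_filter] at hp ⊢
        exact ⟨hp.1, hGH.le hp.2⟩
    have h3 := Finset.card_lt_card h2
    omega

theorem isMax_of_back {k : ℕ} {G : SimpleGraph (Fin n)} (hk : k ≤ n)
    (h : ∀ x, (back G x).card = min (x : ℕ) k) : IsMaxKDegenerate k G := by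
  obtain ⟨h1, h2⟩ := isMax_of_back' hk h
  refine ⟨h1, fun u v huv hnadj => h2 _ ?_⟩
  refine lt_of_le_of_ne le_sup_left ?_
  intro h
  apply hnadj
  rw [h, SimpleGraph.sup_adj]
  right
  rw [SimpleGraph.edge_adj]
  exact ⟨Or.inl ⟨rfl, rfl⟩, huv⟩

end gen

section graph

variable {k R N : ℕ}

lemma val_eq (x : Fin (N * mG k R)) : (x : ℕ) = idx k R (gr x) + mG k R * lev x := by
  have h := EE_val ((EE k R N).symm x)
  rw [Equiv.apply_symm_apply] at h
  exact h

lemma idx_lt (g : Gam k R) : (idx k R g : ℕ) < mG k R := (idx k R g).2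

lemma lt_of_lev {x y : Fin (N * mG k R)} (h : lev y < lev x) : y < x := by
  rw [Fin.lt_def, val_eq x, val_eq y]
  have h1 := idx_lt (gr y)
  have h2 : mG k R * (lev y + 1) ≤ mG k R * lev x := Nat.mul_le_mul_left _ h
  rw [mul_add, mul_one] at h2
  omega

lemma k_le_mG (hR : 1 ≤ R) : k ≤ mG k R := by
  have h1 : Function.Injective (fun j : Fin k => PL R ((j, true) : Let k)) := by
    intro j j' h
    have h2 := congrArg (fun g : Gam k R => (g (e0 _ R)).1) h
    simp only at h2
    rw [PL_e0 hR, PL_e0 hR] at h2
    have h3 := List.head_eq_of_cons_eq h2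
    exact congrArg Prod.fst h3
  have h2 := Nat.card_le_card_of_injective _ h1
  rw [Nat.card_eq_fintype_card, Fintype.card_fin] at h2
  exact h2

lemma back_card (hR : 1 ≤ R) (x : Fin (N * mG k R)) :
    (back (GG k R N) x).card = min (x : ℕ) k := by
  classical
  have hkm := k_le_mG (k := k) hR
  by_cases h0 : lev x = 0
  · have hx := val_eq x
    rw [h0, mul_zero, add_zero] at hx
    have hxm : (x : ℕ) < mG k R := by rw [hx]; exact idx_lt _
    have h1 : back (GG k R N) x = Finset.univ.filter (fun y : Fin (N * mG k R) =>
        (y : ℕ) < min (x : ℕ) k ∨ ((y : ℕ) < x ∧ (x : ℕ) < k)) := by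
      ext y
      unfold back
      rw [Finset.mem_filter, Finset.mem_filter]
      refine and_congr_right (fun _ => ?_)
      have hy := val_eq y
      constructor
      · rintro ⟨hyx, hadj⟩
        rw [Fin.lt_def] at hyx
        rcases hadj with ⟨h2, _⟩ | ⟨h2, _⟩ | ⟨_, h3, _, h4⟩
        · omega
        · have := lt_of_lev (x := y) (y := x) (by omega)
          rw [Fin.lt_def] at this
          omega
        · rw [h3, mul_zero, add_zero] at hy
          rw [← hx, ← hy] at h4
          rw [lt_min_iff]
          rcases h4 with h4 | h4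
          · exact Or.inr ⟨hyx, h4⟩
          · exact Or.inl ⟨hyx, h4⟩
      · intro h
        have hyx : (y : ℕ) < x := by
          rcases h with h | h
          · exact (lt_min_iff.1 h).1
          · exact h.1
        have hly : lev y = 0 := by
          by_contra hne
          have := lt_of_lev (x := y) (y := x) (by omega)
          rw [Fin.lt_def] at this
          omega
        rw [hly, mul_zero, add_zero] at hy
        refine ⟨hyx, Or.inr (Or.inr ⟨h0, hly, ?_, ?_⟩)⟩
        · intro hg
          rw [hg, ← hy] at hx
          omega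
        · rw [← hx, ← hy]
          rcases h with h | h
          · exact Or.inr (lt_min_iff.1 h).2
          · exact Or.inl h.2
    rw [h1]
    by_cases hxk : (x : ℕ) < k
    · have h2 : Finset.univ.filter (fun y : Fin (N * mG k R) =>
          (y : ℕ) < min (x : ℕ) k ∨ ((y : ℕ) < x ∧ (x : ℕ) < k)) =
          Finset.univ.filter (fun y : Fin (N * mG k R) => (y : ℕ) < x) := by
        apply Finset.filter_congr
        intro y _
        rw [min_eq_left hxk.le]
        tauto
      rw [h2, Fin.card_filter_val_lt, min_eq_left hxk.le]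
      exact min_eq_right x.2.le
    · have h2 : Finset.univ.filter (fun y : Fin (N * mG k R) =>
          (y : ℕ) < min (x : ℕ) k ∨ ((y : ℕ) < x ∧ (x : ℕ) < k)) =
          Finset.univ.filter (fun y : Fin (N * mG k R) => (y : ℕ) < k) := by
        apply Finset.filter_congr
        intro y _
        rw [min_eq_right (not_lt.1 hxk)]
        tauto
      rw [h2, Fin.card_filter_val_lt, min_eq_right (not_lt.1 hxk)]
      apply min_eq_right
      have := x.2
      omega
  · have h1 : back (GG k R N) x = Finset.univ.image (fun j : Fin k =>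
        step ((j, par (lev x)) : Let k) x) := by
      ext y
      unfold back
      rw [Finset.mem_filter, Finset.mem_image]
      constructor
      · rintro ⟨_, hyx, hadj⟩
        rcases hadj with ⟨h2, j, h3⟩ | ⟨h2, _⟩ | ⟨h2, _⟩
        · refine ⟨j, Finset.mem_univ _, ext_lg ?_ ?_⟩
          · rw [step_down _ _ rfl]; omega
          · rw [gr_step, h3]
        · have := lt_of_lev (x := y) (y := x) (by omega)
          exact absurd hyx (not_lt_of_gt this)
        · exact absurd h2 h0
      · rintro ⟨j, _, rfl⟩
        have h2 : lev (step ((j, par (lev x)) : Let k) x) = lev x - 1 := step_down _ _ rfl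
        refine ⟨Finset.mem_univ _, lt_of_lev (by omega), Or.inl ⟨by omega, j, ?_⟩⟩
        rw [gr_step]
    have h2 : Function.Injective (fun j : Fin k => step ((j, par (lev x)) : Let k) x) := by
      intro j j' h
      have h3 := congrArg gr h
      simp only at h3
      rw [gr_step, gr_step] at h3
      have h4 := mul_right_cancel h3
      have h5 : (PL R ((j, par (lev x)) : Let k) (e0 _ R)).1 =
          (PL R ((j', par (lev x)) : Let k) (e0 _ R)).1 := by rw [h4]
      rw [PL_e0 hR, PL_e0 hR] at h5
      have h6 := List.head_eq_of_cons_eq h5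
      exact congrArg Prod.fst h6
    rw [h1, Finset.card_image_of_injective _ h2, Finset.card_univ, Fintype.card_fin]
    rw [min_eq_right]
    rw [val_eq x]
    have h3 : mG k R * 1 ≤ mG k R * lev x := Nat.mul_le_mul_left _ (by omega)
    omega

theorem GG_max (hR : 1 ≤ R) (hN : 1 ≤ N) : IsMaxKDegenerate k (GG k R N) := by
  apply isMax_of_back
  · have h1 := k_le_mG (k := k) hR
    calc k ≤ 1 * mG k R := by omega
      _ ≤ N * mG k R := Nat.mul_le_mul_right _ hN
  · exact back_card hR

lemma GG_deg (x : Fin (N * mG k R)) :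
    Nat.card ((GG k R N).neighborSet x) ≤ 3 * mG k R := by
  have hlev : ∀ y : (GG k R N).neighborSet x, lev y.1 + 1 - lev x < 3 ∧ lev x ≤ lev y.1 + 1 := by
    rintro ⟨y, hy⟩
    have hy' : adj x y := hy
    change lev y + 1 - lev x < 3 ∧ lev x ≤ lev y + 1
    rcases hy' with ⟨h, _⟩ | ⟨h, _⟩ | ⟨h, h', _⟩
    · omega
    · omega
    · omega
  have h1 : Function.Injective (fun y : (GG k R N).neighborSet x =>
      ((⟨lev y.1 + 1 - lev x, (hlev y).1⟩ : Fin 3), idx k R (gr y.1))) := by
    intro y y' h
    rw [Prod.mk.injEq] at h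
    have h2 := congrArg Fin.val h.1
    simp only at h2
    apply Subtype.ext
    apply ext_lg
    · have := (hlev y).2
      have := (hlev y').2
      omega
    · exact (idx k R).injective h.2
  have h2 := Nat.card_le_card_of_injective _ h1
  rw [Nat.card_prod, Nat.card_fin, Nat.card_fin] at h2
  exact h2

/-- the vertices near the two ends -/
noncomputable def bad (k R N r : ℕ) : Finset (Fin (N * mG k R)) := by
  classical
  exact Finset.univ.filter (fun v => ¬ (r + 2 < lev v ∧ lev v + r + 2 < N))

lemma bad_card (r : ℕ) : (bad k R N r).card ≤ (2 * r + 6) * mG k R := by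
  classical
  have h : (bad k R N r).card ≤ ((Finset.range (2 * r + 6)) ×ˢ
      (Finset.univ : Finset (Fin (mG k R)))).card := by
    apply Finset.card_le_card_of_injOn
      (fun v => (if lev v ≤ r + 2 then lev v else r + 3 + (N - lev v), idx k R (gr v)))
    · intro v hv
      have hv' : ¬ (r + 2 < lev v ∧ lev v + r + 2 < N) := by
        have : v ∈ bad k R N r := hv
        unfold bad at this
        exact (Finset.mem_filter.1 this).2
      rw [Finset.mem_coe, Finset.mem_product]
      refine ⟨?_, Finset.mem_univ _⟩
      rw [Finset.mem_range]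
      simp only
      split_ifs with h1
      · omega
      · omega
    · intro v hv v' hv' hvv
      rw [Prod.mk.injEq] at hvv
      have l1 := lev_lt v
      have l2 := lev_lt v'
      apply ext_lg
      · have h1 := hvv.1
        split_ifs at h1 with h2 h3 h3
        · exact h1
        · omega
        · omega
        · omega
      · exact (idx k R).injective hvv.2
  rw [Finset.card_product, Finset.card_range, Finset.card_univ, Fintype.card_fin] at h
  exact h

lemma bad_bulk (r : ℕ) (v : Fin (N * mG k R)) (hv : v ∉ bad k R N r) :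
    Bulk step (GG k R N) r v := by
  classical
  have h : r + 2 < lev v ∧ lev v + r + 2 < N := by
    by_contra hcon
    apply hv
    unfold bad
    exact Finset.mem_filter.2 ⟨Finset.mem_univ _, hcon⟩
  exact bulk r v h.1 h.2

end graph

end Pool.Agent.K4H82.DG
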