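import Mathlib
import Pool.Agent.K4H82.DG.Maxl

set_option autoImplicit false

namespace Pool.Agent.K4H82.DG

open Equiv Filter Topology

lemma value_nonneg {n : ℕ} (G : SimpleGraph (Fin n)) (A : Perm (Fin n) → ℕ) :
    0 ≤ value G A := by
  unfold value
  exact div_nonneg (Finset.sum_nonneg (fun σ _ => Nat.cast_nonneg _)) (Nat.cast_nonneg _)

lemma m_nonneg {n : ℕ} (G : SimpleGraph (Fin n)) : 0 ≤ m G := by
  unfold m
  apply Real.sSup_nonneg
  rintro x ⟨A, _, rfl⟩
  exact value_nonneg G A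

/-- the constant in the upper bound -/
noncomputable def CB (k R : ℕ) : ℝ :=
  (2 * (2 * k : ℝ) + 1) * ((∑ i ∈ Finset.range (R + 1), dB (2 * k) i : ℕ) : ℝ) +
    (2 * k + 1) * (((2 * R + 6) * mG k (R + 1) : ℕ) : ℝ)

theorem GG_m_le {k R M N : ℕ} (hk : 1 ≤ k) (hR : 1 ≤ R) (hM : 1 ≤ M) (hN : 1 ≤ N) :
    m (GG k (R + 1) N) ≤ ((N * mG k (R + 1) : ℕ) : ℝ) * (1 / (4 * k) + 1 / R + 2 / M) +
      (2 + CB k R + 4 * (((3 * mG k (R + 1) : ℕ) : ℝ) + 1) ^ 2 * M * (M + 1) ^ 2) := by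
  classical
  set n := N * mG k (R + 1) with hn
  have hmG : 1 ≤ mG k (R + 1) := le_trans hk (k_le_mG (by omega))
  have hn1 : 1 ≤ n := by
    rw [hn]; exact Nat.one_le_iff_ne_zero.2 (Nat.mul_ne_zero (by omega) (by omega))
  have hnr : (1 : ℝ) ≤ n := by exact_mod_cast hn1
  have hMr : (1 : ℝ) ≤ M := by exact_mod_cast hM
  have hkr : (1 : ℝ) ≤ k := by exact_mod_cast hk
  have hRr : (1 : ℝ) ≤ R := by exact_mod_cast hR
  haveI : Nonempty (Let k) := ⟨(⟨0, hk⟩, true)⟩
  have hcard : Fintype.card (Let k) = 2 * k := by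
    rw [Fintype.card_prod, Fintype.card_fin, Fintype.card_bool]; ring
  have hA : ∀ a : Let k, ∃ b, a ≠ b := by
    rintro ⟨j, e⟩
    refine ⟨(j, !e), ?_⟩
    intro h
    have := congrArg Prod.snd h
    simp at this
  have hbad : ((bad k (R + 1) N R).card : ℝ) ≤ (((2 * R + 6) * mG k (R + 1) : ℕ) : ℝ) := by
    exact_mod_cast bad_card R
  have haZ : ∀ t ≤ n, aZ (GG k (R + 1) N) t ≤ (n : ℝ) / (4 * k) + 1 + n / R + CB k R := by
    intro t ht
    have h1 := aZ_le (G := GG k (R + 1) N) step_inv hA hR step_free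
      (bad k (R + 1) N R) (bad_bulk R) (C := CB k R) (by
        intro r hr
        rw [hcard]
        have h2 : ((dB (2 * k) r : ℕ) : ℝ) ≤
            ((∑ i ∈ Finset.range (R + 1), dB (2 * k) i : ℕ) : ℝ) := by
          exact_mod_cast Finset.single_le_sum (f := fun i => dB (2 * k) i)
            (fun _ _ => Nat.zero_le _) (Finset.mem_range.2 (by omega))
        have h3 : ((dB (2 * k) (r + 1) : ℕ) : ℝ) ≤
            ((∑ i ∈ Finset.range (R + 1), dB (2 * k) i : ℕ) : ℝ) := by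
          exact_mod_cast Finset.single_le_sum (f := fun i => dB (2 * k) i)
            (fun _ _ => Nat.zero_le _) (Finset.mem_range.2 (by omega))
        unfold CB
        have h4 : (2 : ℝ) * (2 * k) * (dB (2 * k) r : ℕ) ≤
            2 * (2 * k) * ((∑ i ∈ Finset.range (R + 1), dB (2 * k) i : ℕ) : ℝ) :=
          mul_le_mul_of_nonneg_left h2 (by positivity)
        have h5 : ((2 : ℝ) * k + 1) * ((bad k (R + 1) N R).card : ℝ) ≤
            (2 * k + 1) * (((2 * R + 6) * mG k (R + 1) : ℕ) : ℝ) :=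
          mul_le_mul_of_nonneg_left hbad (by positivity)
        push_cast at h2 h3 h4 h5 ⊢
        linarith) ht
    rw [hcard] at h1
    have h2 : (n : ℝ) / (2 * ((2 * k : ℕ) : ℝ)) = n / (4 * k) := by
      push_cast
      congr 1
      ring
    rw [h2] at h1
    exact h1
  have hδ : (0 : ℝ) < n / (M * (M + 1)) := by positivity
  apply m_le hn1
  intro A hAs
  have h1 := value_le (G := GG k (R + 1) N) GG_deg haZ hM hδ (fun σ => (hAs.1 σ).2)
  refine h1.trans (le_of_eq ?_)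
  have hn0 : (n : ℝ) ≠ 0 := by positivity
  have hk0 : (k : ℝ) ≠ 0 := by positivity
  have hR0 : (R : ℝ) ≠ 0 := by positivity
  have hM0 : (M : ℝ) ≠ 0 := by positivity
  have hM1 : (M : ℝ) + 1 ≠ 0 := by positivity
  field_simp
  ring

end Pool.Agent.K4H82.DG
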